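import Pool.Agent.Helper97K9.Shuffle.Neg

set_option linter.unusedSectionVars false
set_option linter.unusedVariables false

namespace Pool.Agent.Helper97K9.Shuffle

open Finset Equiv

variable {α : Type*} [Fintype α] [DecidableEq α] {β : Type*} [Fintype β] [DecidableEq β]

theorem viaEmbedding_swap (e : β ↪ α) (a b : β) :
    (swap a b).viaEmbedding e = swap (e a) (e b) := by
  ext x
  by_cases hx : x ∈ Set.range e
  · obtain ⟨y, rfl⟩ := hx
    rw [Perm.viaEmbedding_apply, e.injective.swap_apply]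
  · rw [Perm.viaEmbedding_apply_of_notMem _ _ _ hx, swap_apply_of_ne_of_ne]
    · rintro rfl; exact hx ⟨a, rfl⟩
    · rintro rfl; exact hx ⟨b, rfl⟩

/-- Average over permutations of the range of `e`. -/
noncomputable def avgOn (k : ℕ) (e : β ↪ α) : Fn k α →ₗ[ℝ] Fn k α :=
  ((Fintype.card (Perm β) : ℝ)⁻¹) • ∑ σ : Perm β, act k (σ.viaEmbedding e)

theorem avgOn_apply {k : ℕ} (e : β ↪ α) (F : Fn k α) (x : Fin k → α) :
    avgOn k e F x
      = (Fintype.card (Perm β) : ℝ)⁻¹ * ∑ σ : Perm β, F (fun i => σ.viaEmbedding e (x i)) := by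
  simp [avgOn, LinearMap.sum_apply, Finset.sum_apply]

theorem avgOn_inv {k : ℕ} (e : β ↪ α) (F : Fn k α) (τ : Perm β) :
    act k (τ.viaEmbedding e) (avgOn k e F) = avgOn k e F := by
  funext x
  rw [act_apply, avgOn_apply, avgOn_apply]
  congr 1
  refine Fintype.sum_equiv (Equiv.mulRight τ) _ _ (fun σ => ?_)
  congr 1
  funext i
  rw [Equiv.coe_mulRight]
  have := map_mul (Perm.viaEmbeddingHom e) σ τ
  simp only [Perm.viaEmbeddingHom_apply] at this
  rw [this]; rfl

theorem avgOn_mem_V {k : ℕ} (e : β ↪ α) {F : Fn k α} (hF : F ∈ V k α) : avgOn k e F ∈ V k α := by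
  unfold avgOn
  simp only [LinearMap.smul_apply, LinearMap.sum_apply]
  exact Submodule.smul_mem _ _ (Submodule.sum_mem _ (fun σ _ => V_act hF _))

theorem opL_map_avgOn {k : ℕ} (e : β ↪ α) (w : List (Gate β)) (F : Fn k α) :
    opL k (w.map (Gate.map e)) (avgOn k e F) = avgOn k e F := by
  apply opL_of_inv
  intro g hg
  obtain ⟨g', -, rfl⟩ := List.mem_map.1 hg
  show act k (swap (e g'.a) (e g'.b)) (avgOn k e F) = avgOn k e F
  rw [← viaEmbedding_swap, avgOn_inv]

theorem avgOn_bound {k : ℕ} (e : β ↪ α) (F : Fn k α) (M : ℝ) (h : ∀ x, |F x| ≤ M) (x : Fin k → α) :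
    |avgOn k e F x| ≤ M := by
  rw [avgOn_apply, abs_mul, abs_of_nonneg (by positivity)]
  have hc : (0:ℝ) < (Fintype.card (Perm β) : ℝ) := by exact_mod_cast Fintype.card_pos
  rw [inv_mul_le_iff₀ hc]
  calc |∑ σ : Perm β, F (fun i => σ.viaEmbedding e (x i))|
      ≤ ∑ σ : Perm β, |F (fun i => σ.viaEmbedding e (x i))| := Finset.abs_sum_le_sum_abs _ _
    _ ≤ ∑ _σ : Perm β, M := Finset.sum_le_sum (fun σ _ => h _)
    _ = _ := by rw [Finset.sum_const, Finset.card_univ, nsmul_eq_mul]

/-- equivariant parametrization -/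
def Equivariant {k : ℕ} (e : β ↪ α) (E : (Fin k → β) → (Fin k → α)) : Prop :=
  ∀ (σ : Perm β) (y : Fin k → β), (fun i => σ.viaEmbedding e (E y i)) = E (fun i => σ (y i))

theorem res_opL {k : ℕ} {e : β ↪ α} {E : (Fin k → β) → (Fin k → α)} (hE : Equivariant e E)
    (w : List (Gate β)) (F : Fn k α) (y : Fin k → β) :
    opL k (w.map (Gate.map e)) F (E y) = opL k w (fun y => F (E y)) y := by
  induction w generalizing F with
  | nil => rfl
  | cons g t ih =>
    rw [List.map_cons, opL_cons, opL_cons, ih]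
    have : (fun y => gateOp k (Gate.map e g) F (E y)) = gateOp k g (fun y => F (E y)) := by
      funext y
      rw [gateOp_apply, gateOp_apply]
      congr 3
      rw [← hE (swap g.a g.b) y, viaEmbedding_swap]
      rfl
    rw [this]

theorem res_avgOn {k : ℕ} {e : β ↪ α} {E : (Fin k → β) → (Fin k → α)} (hE : Equivariant e E)
    (F : Fn k α) (y : Fin k → β) :
    avgOn k e F (E y) = avg k β (fun y => F (E y)) y := by
  rw [avgOn_apply, avg_apply]
  congr 1
  exact Finset.sum_congr rfl (fun σ _ => by rw [hE])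

theorem equivariant_comp {k : ℕ} (e : β ↪ α) : Equivariant e (fun (y : Fin k → β) i => e (y i)) := by
  intro σ y
  funext i
  rw [Perm.viaEmbedding_apply]

open Classical in
/-- replace the coordinates of `x` lying in the range of `e` -/
noncomputable def ext {k : ℕ} (e : β ↪ α) (x : Fin k → α) (y : Fin k → β) : Fin k → α :=
  fun i => if x i ∈ Set.range e then e (y i) else x i

theorem equivariant_ext {k : ℕ} (e : β ↪ α) (x : Fin k → α) : Equivariant e (ext e x) := by
  intro σ y
  funext i
  unfold ext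
  by_cases h : x i ∈ Set.range e
  · rw [if_pos h, if_pos h, Perm.viaEmbedding_apply]
  · rw [if_neg h, if_neg h, Perm.viaEmbedding_apply_of_notMem _ _ _ h]

theorem exists_ext {k : ℕ} (e : β ↪ α) (x : Fin k → α) [Nonempty β] : ∃ y, ext e x y = x := by
  classical
  obtain ⟨b0⟩ := ‹Nonempty β›
  refine ⟨fun i => if h : x i ∈ Set.range e then h.choose else b0, ?_⟩
  funext i
  unfold ext
  by_cases h : x i ∈ Set.range e
  · rw [if_pos h]
    simp only [dif_pos h]
    exact h.choose_spec
  · rw [if_neg h]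

/-- Exact shuffles on a block. -/
theorem opL_map_eq_avgOn {k : ℕ} (e : β ↪ α) {w : List (Gate β)} (hw : Unif k w) [Nonempty β]
    (F : Fn k α) : opL k (w.map (Gate.map e)) F = avgOn k e F := by
  funext x
  obtain ⟨y, hy⟩ := exists_ext e x
  rw [← hy, res_opL (equivariant_ext e x), res_avgOn (equivariant_ext e x), hw]

theorem approx {k : ℕ} (e : β ↪ α) [Nonempty β] {w : List (Gate β)} (hv : Valid w)
    (hw : Unif k w) (t : ℕ) {v : Fn (k + 1) α} (M : ℝ) (hM : ∀ x, |v x| ≤ M) :
    ∃ (A : List (Gate α)) (err : Fn (k + 1) α), Valid A ∧ A.length = w.length + t ∧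
      opL (k + 1) A v = avgOn (k + 1) e v + err ∧
      ip err err ≤ (1 - 1 / (Fintype.card β : ℝ)) ^ t *
        ((Fintype.card α : ℝ) ^ (k + 1) * (2 * M) ^ 2) := by
  have hM0 : 0 ≤ M := (abs_nonneg _).trans (hM (fun _ => e (Classical.arbitrary β)))
  set f : Fn (k + 1) α := opL (k + 1) (w.map (Gate.map e)) v - avgOn (k + 1) e v with hf
  have hfx : ∀ x : Fin (k + 1) → α, (∃ i, x i ∉ Set.range e) → f x = 0 := by
    rintro x ⟨i, hi⟩
    obtain ⟨y, hy⟩ := exists_ext e x
    rw [← hy, hf, Pi.sub_apply, res_opL (equivariant_ext e x), res_avgOn (equivariant_ext e x),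
      unif_indep hw i, sub_self]
    intro z a
    congr 1
    funext j
    unfold ext
    by_cases hj : j = i
    · subst hj; rw [if_neg hi, if_neg hi]
    · rw [Function.update_of_ne hj]
  set fβ : Fn (k + 1) β := fun y => f (fun i => e (y i)) with hfβ
  have hfβV : fβ ∈ V (k + 1) β := by
    have : fβ = opL (k + 1) w (fun y => v (fun i => e (y i)))
        - avg (k + 1) β (fun y => v (fun i => e (y i))) := by
      funext y
      rw [hfβ, hf]
      simp only [Pi.sub_apply]
      rw [res_opL (E := fun (y : Fin (k + 1) → β) i => e (y i)) (equivariant_comp e),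
        res_avgOn (E := fun (y : Fin (k + 1) → β) i => e (y i)) (equivariant_comp e)]
    rw [this]
    exact unif_diff_mem hw _
  obtain ⟨w2, hv2, hl2, hw2⟩ := greedy (Nat.succ_pos k) t hfβV
  set err : Fn (k + 1) α := opL (k + 1) (w2.map (Gate.map e)) f with herr
  refine ⟨w.map (Gate.map e) ++ w2.map (Gate.map e), err, (hv.map e).append (hv2.map e), by simp [hl2],
    ?_, ?_⟩
  · rw [opL_append]
    have : opL (k + 1) (w.map (Gate.map e)) v = avgOn (k + 1) e v + f := by rw [hf]; abel
    rw [this, map_add, opL_map_avgOn]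
  · have herr0 : ∀ x : Fin (k + 1) → α, (∃ i, x i ∉ Set.range e) → err x = 0 := by
      rintro x ⟨i, hi⟩
      obtain ⟨y, hy⟩ := exists_ext e x
      rw [← hy, herr, res_opL (equivariant_ext e x)]
      have : (fun y => f (ext e x y)) = 0 := by
        funext y
        apply hfx
        refine ⟨i, ?_⟩
        unfold ext
        rw [if_neg hi]; exact hi
      rw [this, map_zero]; rfl
    have herr1 : ip err err = ip (opL (k + 1) w2 fβ) (opL (k + 1) w2 fβ) := by
      unfold ip
      symm
      apply Fintype.sum_of_injective (fun (y : Fin (k + 1) → β) i => e (y i))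
      · intro y z h
        funext i
        exact e.injective (congrFun h i)
      · intro x hx
        rw [herr0 x, mul_zero]
        by_contra hcon
        push Not at hcon
        apply hx
        choose y hy using hcon
        exact ⟨y, funext hy⟩
      · intro y
        rw [herr, res_opL (E := fun (y : Fin (k + 1) → β) i => e (y i)) (equivariant_comp e)]
    rw [herr1]
    refine hw2.trans ?_
    have hβ1 : (1:ℝ) ≤ (Fintype.card β : ℝ) := by exact_mod_cast Fintype.card_pos
    have hnn : (0:ℝ) ≤ 1 - 1 / (Fintype.card β : ℝ) := by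
      rw [sub_nonneg, div_le_one (by linarith)]; exact hβ1
    apply mul_le_mul_of_nonneg_left _ (pow_nonneg hnn _)
    have hfb : ∀ y, |fβ y| ≤ 2 * M := by
      intro y
      rw [hfβ, hf]
      simp only [Pi.sub_apply]
      calc _ ≤ |opL (k + 1) (w.map (Gate.map e)) v (fun i => e (y i))|
            + |avgOn (k + 1) e v (fun i => e (y i))| := abs_sub _ _
        _ ≤ M + M := add_le_add (opL_bound _ (hv.map e) _ _ hM _) (avgOn_bound e v M hM _)
        _ = 2 * M := by ring
    refine (ip_le_of_bound fβ (2 * M) hfb).trans ?_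
    apply mul_le_mul_of_nonneg_right _ (by positivity)
    apply pow_le_pow_left₀ (by positivity)
    exact_mod_cast Fintype.card_le_of_embedding e

/-! ### transport -/

def Has (k : ℕ) (α : Type*) [Fintype α] [DecidableEq α] (ℓ : ℕ) : Prop :=
  ∃ w : List (Gate α), Valid w ∧ Unif k w ∧ w.length ≤ ℓ

theorem Has.mono {k : ℕ} {ℓ ℓ' : ℕ} (h : Has k α ℓ) (hl : ℓ ≤ ℓ') : Has k α ℓ' := by
  obtain ⟨w, h1, h2, h3⟩ := h
  exact ⟨w, h1, h2, h3.trans hl⟩

theorem Has.transport {k ℓ : ℕ} (h : Has k β ℓ) (e : β ≃ α) : Has k α ℓ := by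
  obtain ⟨w, h1, h2, h3⟩ := h
  refine ⟨w.map (Gate.map e.toEmbedding), h1.map _, ?_, by simpa using h3⟩
  intro F
  funext x
  have hx : x = fun i => e.toEmbedding (e.symm (x i)) := by funext i; simp
  rw [hx, res_opL (E := fun (y : Fin k → β) i => e.toEmbedding (y i))
    (equivariant_comp e.toEmbedding), h2, avg_apply, avg_apply]
  rw [Fintype.card_congr (Equiv.permCongr e)]
  congr 1
  refine Fintype.sum_equiv (Equiv.permCongr e) _ _ (fun σ => ?_)
  congr 1
  funext i
  simp [Equiv.permCongr_apply]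

/-- The key negativity statement. -/
theorem neg_word {k : ℕ} (hn : k + 2 ≤ Fintype.card α) (ℓ t : ℕ)
    (hHas : Has k (Fin (Fintype.card α - (k + 1))) ℓ)
    (ht : (1 - 1 / ((Fintype.card α : ℝ))) ^ t *
      (36 * (Fintype.card α : ℝ) ^ (k + 3)) ≤ 1)
    {v : Fn (k + 1) α} (hvV : v ∈ V (k + 1) α) (hv0 : v ≠ 0) :
    ∃ (A : List (Gate α)) (a b : α), Valid A ∧ A.length ≤ ℓ + t ∧
      ip (opL (k + 1) A v) (act (k + 1) (swap a b) (opL (k + 1) A v)) < 0 := by
  classical
  have hne : Nonempty α := by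
    apply Fintype.card_pos_iff.1; omega
  obtain ⟨z0, -, hz0⟩ := Finset.exists_max_image (univ : Finset (Fin (k + 1) → α)) (fun z => |v z|)
    ⟨fun _ => Classical.arbitrary α, mem_univ _⟩
  set M := |v z0| with hM
  have hMb : ∀ x, |v x| ≤ M := fun x => hz0 x (mem_univ x)
  have hM0 : 0 < M := by
    apply lt_of_le_of_ne (abs_nonneg _)
    intro h
    apply hv0
    funext x
    have := hMb x
    rw [hM, ← h] at this
    exact abs_nonpos_iff.1 this
  have hzne : v z0 ≠ 0 := abs_pos.1 hM0
  have hinj : Function.Injective z0 := by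
    by_contra hcon
    exact hzne (hvV.1 z0 hcon)
  set X : Finset α := univ.image z0 with hX
  have hXc : X.card = k + 1 := by
    rw [hX, Finset.card_image_of_injective _ hinj, Finset.card_univ, Fintype.card_fin]
  let β := {a : α // a ∉ X}
  have hβc : Fintype.card β = Fintype.card α - (k + 1) := by
    rw [Fintype.card_subtype_compl (fun a => a ∈ X), Fintype.card_coe, hXc]
  have hβne : Nonempty β := by
    apply Fintype.card_pos_iff.1; omega
  let e : β ↪ α := Function.Embedding.subtype _
  have he : ∀ a, a ∈ Set.range e ↔ a ∉ X := by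
    intro a
    constructor
    · rintro ⟨b, rfl⟩; exact b.2
    · intro h; exact ⟨⟨a, h⟩, rfl⟩
  have hHas' : Has k β ℓ := hHas.transport (Fintype.equivOfCardEq (by rw [Fintype.card_fin, hβc]))
  obtain ⟨w, hwv, hwu, hwl⟩ := hHas'
  obtain ⟨A, err, hAv, hAl, hA, herr⟩ := approx e hwv hwu t (v := v) M hMb
  set u0 := avgOn (k + 1) e v with hu0
  have hu0V : u0 ∈ V (k + 1) α := avgOn_mem_V e hvV
  have hu0z : u0 z0 = v z0 := by
    rw [hu0, avgOn_apply]
    have : ∀ σ : Perm β, v (fun i => σ.viaEmbedding e (z0 i)) = v z0 := by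
      intro σ
      congr 1
      funext i
      rw [Perm.viaEmbedding_apply_of_notMem]
      rw [he, not_not, hX]
      exact mem_image_of_mem _ (mem_univ i)
    simp only [this, Finset.sum_const, Finset.card_univ, nsmul_eq_mul]
    rw [← mul_assoc, inv_mul_cancel₀, one_mul]
    exact_mod_cast Fintype.card_ne_zero
  have hU : M ^ 2 ≤ ip u0 u0 := by
    have := sq_le_ip u0 z0
    rw [hu0z] at this
    rw [hM, sq, abs_mul_abs_self]
    exact this
  have hu0ne : u0 ≠ 0 := by
    intro h
    rw [h] at hu0z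
    exact hzne hu0z.symm
  obtain ⟨a, b, hab⟩ := exists_neg (Nat.succ_pos k) hu0V hu0ne X hXc (by
    intro a b ha hb
    have h := avgOn_inv e v (swap (⟨a, ha⟩ : β) ⟨b, hb⟩)
    rw [viaEmbedding_swap] at h
    exact h)
  refine ⟨A, a, b, hAv, by rw [hAl]; omega, ?_⟩
  rw [hA]
  set n : ℝ := (Fintype.card α : ℝ) with hn'
  have hn1 : (1:ℝ) ≤ n := by
    rw [hn']; exact_mod_cast Fintype.card_pos
  set U := ip u0 u0 with hUdef
  set Er := ip err err with hErdef
  have hUpos : 0 < U := lt_of_lt_of_le (by positivity) hU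
  have hErU : Er ≤ U / (9 * n ^ 2) := by
    have hβ1 : (1:ℝ) ≤ (Fintype.card β : ℝ) := by exact_mod_cast Fintype.card_pos
    have hβn : (Fintype.card β : ℝ) ≤ n := by
      rw [hn']; exact_mod_cast Fintype.card_le_of_embedding e
    have hmono : (1 - 1 / (Fintype.card β : ℝ)) ^ t ≤ (1 - 1 / n) ^ t := by
      apply pow_le_pow_left₀
      · rw [sub_nonneg, div_le_one (by linarith)]; exact hβ1
      · apply sub_le_sub_left
        exact one_div_le_one_div_of_le (by linarith) hβn
    have hpn : (0:ℝ) ≤ (1 - 1 / n) ^ t := by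
      apply pow_nonneg
      rw [sub_nonneg, div_le_one (by linarith)]; exact hn1
    calc Er ≤ (1 - 1 / (Fintype.card β : ℝ)) ^ t * (n ^ (k + 1) * (2 * M) ^ 2) := herr
      _ ≤ (1 - 1 / n) ^ t * (n ^ (k + 1) * (2 * M) ^ 2) :=
          mul_le_mul_of_nonneg_right hmono (by positivity)
      _ = ((1 - 1 / n) ^ t * (36 * n ^ (k + 3))) * (M ^ 2 / (9 * n ^ 2)) := by
          have : n ^ (k + 3) = n ^ (k + 1) * n ^ 2 := by rw [← pow_add]
          rw [this]
          field_simp
          ring
      _ ≤ 1 * (M ^ 2 / (9 * n ^ 2)) := mul_le_mul_of_nonneg_right ht (by positivity)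
      _ ≤ U / (9 * n ^ 2) := by
          rw [one_mul]
          exact div_le_div_of_nonneg_right hU (by positivity)
  have hEr0 : 0 ≤ Er := ip_self_nonneg err
  have hcs : ∀ G H : Fn (k + 1) α, ip G G = U → ip H H = Er → ip G H ≤ U / (3 * n) := by
    intro G H hG hH
    have h1 := ip_sq_le G H
    rw [hG, hH] at h1
    have h2 : ip G H ^ 2 ≤ (U / (3 * n)) ^ 2 := by
      calc ip G H ^ 2 ≤ U * Er := h1
        _ ≤ U * (U / (9 * n ^ 2)) := mul_le_mul_of_nonneg_left hErU hUpos.le
        _ = (U / (3 * n)) ^ 2 := by field_simp; norm_num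
    exact le_of_abs_le (abs_le_of_sq_le_sq h2 (by positivity))
  have hexp : ip (u0 + err) (act (k + 1) (swap a b) (u0 + err))
      = ip u0 (act (k + 1) (swap a b) u0) + ip u0 (act (k + 1) (swap a b) err)
        + (ip (act (k + 1) (swap a b) u0) err + ip err (act (k + 1) (swap a b) err)) := by
    rw [map_add, ip_add_left, ip_add_right, ip_add_right, ip_comm err (act (k + 1) (swap a b) u0)]
  rw [hexp]
  have t1 := hcs u0 (act (k + 1) (swap a b) err) rfl (ip_act _ _ _)
  have t2 := hcs (act (k + 1) (swap a b) u0) err (ip_act _ _ _) rfl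
  have t3 : ip err (act (k + 1) (swap a b) err) ≤ Er := by
    have := ip_le_half err (act (k + 1) (swap a b) err)
    rw [ip_act] at this
    linarith
  have t4 : Er ≤ U / (9 * n) := by
    refine hErU.trans ?_
    apply div_le_div_of_nonneg_left hUpos.le (by positivity)
    nlinarith
  have hfin : -(U / n) + U / (3 * n) + (U / (3 * n) + U / (9 * n)) = -(2 * U / (9 * n)) := by
    field_simp; norm_num
  have hfin2 : 0 < 2 * U / (9 * n) := by positivity
  linarith

end Pool.Agent.Helper97K9.Shuffle
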