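import Mathlib

/-! Operators of sequences of lazy transpositions on functions of `k`-tuples. -/

set_option linter.unusedSectionVars false
set_option linter.unusedVariables false

namespace Pool.Agent.Helper97K9.Shuffle

open Finset Equiv

/-- Functions of `k`-tuples. -/
abbrev Fn (k : ℕ) (α : Type*) := (Fin k → α) → ℝ

/-- A gate: the transposition `(a b)` performed with probability `p`. -/
structure Gate (α : Type*) where
  a : α
  b : α
  p : ℝ

def Gate.map {α β : Type*} (e : α ↪ β) (g : Gate α) : Gate β := ⟨e g.a, e g.b, g.p⟩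

def Gate.ok {α : Type*} (g : Gate α) : Prop := 0 ≤ g.p ∧ g.p ≤ 1

def Valid {α : Type*} (w : List (Gate α)) : Prop := ∀ g ∈ w, Gate.ok g

section

variable {α : Type*}

/-- Precomposition with a permutation. -/
def act (k : ℕ) (σ : Perm α) : Fn k α →ₗ[ℝ] Fn k α where
  toFun F := fun x => F (fun i => σ (x i))
  map_add' _ _ := rfl
  map_smul' _ _ := rfl

@[simp] theorem act_apply {k : ℕ} (σ : Perm α) (F : Fn k α) (x : Fin k → α) :
    act k σ F x = F (fun i => σ (x i)) := rfl

theorem act_mul {k : ℕ} (σ τ : Perm α) (F : Fn k α) : act k (σ * τ) F = act k τ (act k σ F) := rfl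

theorem act_one {k : ℕ} (F : Fn k α) : act k (1 : Perm α) F = F := rfl

variable [DecidableEq α]

def gateOp (k : ℕ) (g : Gate α) : Fn k α →ₗ[ℝ] Fn k α :=
  (1 - g.p) • LinearMap.id + g.p • act k (swap g.a g.b)

theorem gateOp_apply {k : ℕ} (g : Gate α) (F : Fn k α) (x : Fin k → α) :
    gateOp k g F x = (1 - g.p) * F x + g.p * F (fun i => swap g.a g.b (x i)) := rfl

/-- The operator `F ↦ (x ↦ E F (T₁ T₂ ⋯ T_l x))`. -/
def opL (k : ℕ) : List (Gate α) → (Fn k α →ₗ[ℝ] Fn k α)
  | [] => LinearMap.id
  | g :: t => (opL k t) ∘ₗ (gateOp k g)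

@[simp] theorem opL_nil {k : ℕ} (F : Fn k α) : opL k ([] : List (Gate α)) F = F := rfl

theorem opL_cons {k : ℕ} (g : Gate α) (t : List (Gate α)) (F : Fn k α) :
    opL k (g :: t) F = opL k t (gateOp k g F) := rfl

theorem opL_append {k : ℕ} (s t : List (Gate α)) (F : Fn k α) :
    opL k (s ++ t) F = opL k t (opL k s F) := by
  induction s generalizing F with
  | nil => rfl
  | cons g s ih => simp only [List.cons_append, opL_cons, ih]

theorem opL_single {k : ℕ} (g : Gate α) (F : Fn k α) :
    opL k [g] F = gateOp k g F := rfl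

/-! ### Pullback along a map of index sets -/

def pull {k l : ℕ} (c : Fin k → Fin l) : Fn k α →ₗ[ℝ] Fn l α where
  toFun F := fun x => F (fun i => x (c i))
  map_add' _ _ := rfl
  map_smul' _ _ := rfl

@[simp] theorem pull_apply {k l : ℕ} (c : Fin k → Fin l) (F : Fn k α) (x : Fin l → α) :
    pull c F x = F (fun i => x (c i)) := rfl

theorem gateOp_pull {k l : ℕ} (c : Fin k → Fin l) (g : Gate α) (F : Fn k α) :
    gateOp l g (pull c F) = pull c (gateOp k g F) := rfl

theorem opL_pull {k l : ℕ} (c : Fin k → Fin l) (w : List (Gate α)) (F : Fn k α) :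
    opL l w (pull c F) = pull c (opL k w F) := by
  induction w generalizing F with
  | nil => rfl
  | cons g t ih => rw [opL_cons, opL_cons, gateOp_pull, ih]

/-! ### invariant functions -/

theorem opL_of_inv {k : ℕ} (w : List (Gate α)) (F : Fn k α)
    (h : ∀ g ∈ w, act k (swap g.a g.b) F = F) : opL k w F = F := by
  induction w with
  | nil => rfl
  | cons g t ih =>
    rw [opL_cons]
    have : gateOp k g F = F := by
      have h1 := h g (by simp)
      funext x
      rw [gateOp_apply]
      have h2 := congrFun h1 x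
      rw [act_apply] at h2
      rw [h2]; ring
    rw [this]
    exact ih (fun g' hg' => h g' (by simp [hg']))

/-! ### sup bounds -/

theorem opL_bound {k : ℕ} (w : List (Gate α)) (hw : Valid w) (F : Fn k α) (M : ℝ)
    (h : ∀ x, |F x| ≤ M) : ∀ x, |opL k w F x| ≤ M := by
  induction w generalizing F with
  | nil => exact h
  | cons g t ih =>
    rw [opL_cons]
    apply ih (fun g' hg' => hw g' (by simp [hg']))
    intro x
    rw [gateOp_apply]
    obtain ⟨h0, h1⟩ := hw g (by simp)
    calc |(1 - g.p) * F x + g.p * F (fun i => swap g.a g.b (x i))|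
        ≤ |(1 - g.p) * F x| + |g.p * F (fun i => swap g.a g.b (x i))| := abs_add_le _ _
      _ = (1 - g.p) * |F x| + g.p * |F (fun i => swap g.a g.b (x i))| := by
          rw [abs_mul, abs_mul, abs_of_nonneg h0, abs_of_nonneg (by linarith : (0:ℝ) ≤ 1 - g.p)]
      _ ≤ (1 - g.p) * M + g.p * M := by
          exact add_le_add (mul_le_mul_of_nonneg_left (h x) (by linarith))
            (mul_le_mul_of_nonneg_left (h _) h0)
      _ = M := by ring

theorem Valid.append {s t : List (Gate α)} (hs : Valid s) (ht : Valid t) : Valid (s ++ t) := by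
  intro g hg
  rcases List.mem_append.1 hg with h | h
  · exact hs g h
  · exact ht g h

theorem Valid.reverse {s : List (Gate α)} (hs : Valid s) : Valid s.reverse := by
  intro g hg
  exact hs g (List.mem_reverse.1 hg)

theorem Valid.map {β : Type*} {s : List (Gate α)} (hs : Valid s) (e : α ↪ β) :
    Valid (s.map (Gate.map e)) := by
  intro g hg
  obtain ⟨g', hg', rfl⟩ := List.mem_map.1 hg
  exact hs g' hg'

theorem Valid.nil : Valid ([] : List (Gate α)) := by
  intro g hg; simp at hg

theorem Valid.single {g : Gate α} (h : Gate.ok g) : Valid [g] := by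
  intro g' hg'
  rw [List.mem_singleton] at hg'
  exact hg' ▸ h

end

/-! ### inner product -/

section

variable {α : Type*} [Fintype α] [DecidableEq α]

def ip {k : ℕ} (F G : Fn k α) : ℝ := ∑ x, F x * G x

theorem ip_comm {k : ℕ} (F G : Fn k α) : ip F G = ip G F := by
  unfold ip; exact Finset.sum_congr rfl (fun x _ => mul_comm _ _)

theorem ip_add_left {k : ℕ} (F G H : Fn k α) : ip (F + G) H = ip F H + ip G H := by
  unfold ip; rw [← Finset.sum_add_distrib]
  exact Finset.sum_congr rfl (fun x _ => by simp [add_mul])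

theorem ip_add_right {k : ℕ} (F G H : Fn k α) : ip F (G + H) = ip F G + ip F H := by
  rw [ip_comm, ip_add_left, ip_comm G, ip_comm H]

theorem ip_smul_left {k : ℕ} (c : ℝ) (F H : Fn k α) : ip (c • F) H = c * ip F H := by
  unfold ip; rw [Finset.mul_sum]
  exact Finset.sum_congr rfl (fun x _ => by simp [mul_assoc])

theorem ip_smul_right {k : ℕ} (c : ℝ) (F H : Fn k α) : ip F (c • H) = c * ip F H := by
  rw [ip_comm, ip_smul_left, ip_comm]

theorem ip_zero_left {k : ℕ} (F : Fn k α) : ip 0 F = 0 := by simp [ip]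

theorem ip_zero_right {k : ℕ} (F : Fn k α) : ip F 0 = 0 := by simp [ip]

theorem ip_self_nonneg {k : ℕ} (F : Fn k α) : 0 ≤ ip F F :=
  Finset.sum_nonneg (fun x _ => mul_self_nonneg _)

theorem ip_self_eq_zero {k : ℕ} {F : Fn k α} : ip F F = 0 ↔ F = 0 := by
  unfold ip
  rw [Finset.sum_eq_zero_iff_of_nonneg (fun x _ => mul_self_nonneg _)]
  constructor
  · intro h
    funext x
    exact mul_self_eq_zero.1 (h x (mem_univ _))
  · rintro rfl x _; simp

theorem ip_act {k : ℕ} (σ : Perm α) (F G : Fn k α) :
    ip (act k σ F) (act k σ G) = ip F G := by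
  unfold ip
  exact Fintype.sum_equiv (Equiv.arrowCongr (Equiv.refl _) σ) _ _ (fun x => rfl)

theorem ip_act_left {k : ℕ} (σ : Perm α) (F G : Fn k α) :
    ip (act k σ F) G = ip F (act k σ⁻¹ G) := by
  rw [← ip_act σ F, ← act_mul]
  congr 1
  simp [act_one]

theorem ip_gateOp {k : ℕ} (g : Gate α) (F G : Fn k α) :
    ip (gateOp k g F) G = ip F (gateOp k g G) := by
  unfold gateOp
  simp only [LinearMap.add_apply, LinearMap.smul_apply, LinearMap.id_apply, ip_add_left,
    ip_add_right, ip_smul_left, ip_smul_right, ip_act_left, Equiv.swap_inv]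

theorem ip_opL {k : ℕ} (w : List (Gate α)) (F G : Fn k α) :
    ip (opL k w F) G = ip F (opL k w.reverse G) := by
  induction w generalizing F G with
  | nil => rfl
  | cons g t ih =>
    rw [opL_cons, ih, ip_gateOp, List.reverse_cons, opL_append, opL_single]

theorem sq_le_ip {k : ℕ} (F : Fn k α) (x : Fin k → α) : F x * F x ≤ ip F F :=
  Finset.single_le_sum (f := fun x => F x * F x) (fun y _ => mul_self_nonneg _) (mem_univ x)

theorem ip_le_of_bound {k : ℕ} (F : Fn k α) (M : ℝ) (h : ∀ x, |F x| ≤ M) :
    ip F F ≤ (Fintype.card α : ℝ) ^ k * M ^ 2 := by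
  unfold ip
  calc ∑ x, F x * F x ≤ ∑ _x : Fin k → α, M ^ 2 := by
        apply Finset.sum_le_sum
        intro x _
        have := h x
        rw [← abs_mul_abs_self, ← sq]
        exact pow_le_pow_left₀ (abs_nonneg _) this 2
    _ = (Fintype.card α : ℝ) ^ k * M ^ 2 := by
        rw [Finset.sum_const, nsmul_eq_mul, Finset.card_univ, Fintype.card_fun, Fintype.card_fin]
        push_cast; ring

/-- Cauchy–Schwarz. -/
theorem ip_sq_le {k : ℕ} (F G : Fn k α) : ip F G ^ 2 ≤ ip F F * ip G G := by
  unfold ip
  have := Finset.sum_mul_sq_le_sq_mul_sq Finset.univ F G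
  simpa [sq] using this

end

end Pool.Agent.Helper97K9.Shuffle
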