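import Pool.Agent.Helper97K9.Shuffle.Basic

set_option linter.unusedSectionVars false
set_option linter.unusedVariables false

namespace Pool.Agent.Helper97K9.Shuffle

open Finset Equiv

variable {α : Type*} [Fintype α] [DecidableEq α]

/-- Average over all permutations. -/
noncomputable def avg (k : ℕ) (α : Type*) [Fintype α] [DecidableEq α] : Fn k α →ₗ[ℝ] Fn k α :=
  ((Fintype.card (Perm α) : ℝ)⁻¹) • ∑ σ : Perm α, act k σ

theorem avg_apply {k : ℕ} (F : Fn k α) (x : Fin k → α) :
    avg k α F x = (Fintype.card (Perm α) : ℝ)⁻¹ * ∑ σ : Perm α, F (fun i => σ (x i)) := by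
  simp [avg, LinearMap.sum_apply, Finset.sum_apply]

theorem avg_pull {k l : ℕ} (c : Fin k → Fin l) (F : Fn k α) :
    avg l α (pull c F) = pull c (avg k α F) := by
  funext x
  rw [avg_apply, pull_apply, avg_apply]
  rfl

theorem avg_inv {k : ℕ} (F : Fn k α) (τ : Perm α) : act k τ (avg k α F) = avg k α F := by
  funext x
  rw [act_apply, avg_apply, avg_apply]
  congr 1
  exact Fintype.sum_equiv (Equiv.mulRight τ) _ _ (fun σ => rfl)

theorem opL_avg {k : ℕ} (w : List (Gate α)) (F : Fn k α) : opL k w (avg k α F) = avg k α F :=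
  opL_of_inv _ _ (fun _ _ => avg_inv _ _)

/-- `w` is a uniform shuffle at the level of `k`-tuples. -/
def Unif (k : ℕ) (w : List (Gate α)) : Prop := ∀ F : Fn k α, opL k w F = avg k α F

/-- Sum over the `i`-th coordinate. -/
def marg {k : ℕ} (i : Fin k) : Fn k α →ₗ[ℝ] Fn k α where
  toFun F := fun x => ∑ a, F (Function.update x i a)
  map_add' _ _ := by funext x; simp [Finset.sum_add_distrib]
  map_smul' _ _ := by funext x; simp [Finset.mul_sum]

theorem marg_apply {k : ℕ} (i : Fin k) (F : Fn k α) (x : Fin k → α) :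
    marg i F x = ∑ a, F (Function.update x i a) := rfl

theorem comp_update {k : ℕ} (σ : Perm α) (x : Fin k → α) (i : Fin k) (a : α) :
    (fun j => σ (Function.update x i a j)) = Function.update (fun j => σ (x j)) i (σ a) := by
  funext j
  by_cases h : j = i
  · subst h; simp
  · simp [Function.update_of_ne h]

theorem marg_act {k : ℕ} (i : Fin k) (σ : Perm α) (F : Fn k α) :
    marg i (act k σ F) = act k σ (marg i F) := by
  funext x
  rw [marg_apply, act_apply, marg_apply]
  simp only [act_apply, comp_update]
  exact Fintype.sum_equiv σ _ _ (fun a => rfl)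

theorem marg_gateOp {k : ℕ} (i : Fin k) (g : Gate α) (F : Fn k α) :
    marg i (gateOp k g F) = gateOp k g (marg i F) := by
  simp only [gateOp, LinearMap.add_apply, LinearMap.smul_apply, LinearMap.id_apply, map_add,
    map_smul, marg_act]

theorem marg_opL {k : ℕ} (i : Fin k) (w : List (Gate α)) (F : Fn k α) :
    marg i (opL k w F) = opL k w (marg i F) := by
  induction w generalizing F with
  | nil => rfl
  | cons g t ih => rw [opL_cons, opL_cons, ih, marg_gateOp]

theorem marg_avg {k : ℕ} (i : Fin k) (F : Fn k α) :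
    marg i (avg k α F) = avg k α (marg i F) := by
  simp only [avg, LinearMap.smul_apply, LinearMap.sum_apply, map_smul, map_sum, marg_act]

/-- Functions on `k`-tuples vanishing on non-injective tuples all of whose marginals vanish. -/
def V (k : ℕ) (α : Type*) [Fintype α] [DecidableEq α] : Submodule ℝ (Fn k α) where
  carrier := {F | (∀ x, ¬ Function.Injective x → F x = 0) ∧ ∀ i, marg i F = 0}
  add_mem' := by
    rintro F G ⟨h1, h2⟩ ⟨h3, h4⟩
    refine ⟨fun x hx => by rw [Pi.add_apply, h1 x hx, h3 x hx, add_zero], fun i => by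
      rw [map_add, h2, h4, add_zero]⟩
  zero_mem' := ⟨fun x _ => rfl, fun i => map_zero _⟩
  smul_mem' := by
    rintro c F ⟨h1, h2⟩
    refine ⟨fun x hx => by rw [Pi.smul_apply, h1 x hx, smul_zero], fun i => by
      rw [map_smul, h2, smul_zero]⟩

theorem mem_V {k : ℕ} {F : Fn k α} :
    F ∈ V k α ↔ (∀ x, ¬ Function.Injective x → F x = 0) ∧ ∀ i, marg i F = 0 := Iff.rfl

theorem V_act {k : ℕ} {F : Fn k α} (hF : F ∈ V k α) (σ : Perm α) : act k σ F ∈ V k α := by
  refine ⟨fun x hx => ?_, fun i => ?_⟩
  · rw [act_apply]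
    apply hF.1
    intro h
    apply hx
    intro i j hij
    exact h (by simp [hij])
  · rw [marg_act, hF.2, map_zero]

theorem V_gateOp {k : ℕ} {F : Fn k α} (hF : F ∈ V k α) (g : Gate α) : gateOp k g F ∈ V k α := by
  unfold gateOp
  simp only [LinearMap.add_apply, LinearMap.smul_apply, LinearMap.id_apply]
  exact Submodule.add_mem _ (Submodule.smul_mem _ _ hF) (Submodule.smul_mem _ _ (V_act hF _))

theorem V_opL {k : ℕ} {F : Fn k α} (hF : F ∈ V k α) (w : List (Gate α)) : opL k w F ∈ V k α := by
  induction w generalizing F with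
  | nil => exact hF
  | cons g t ih => rw [opL_cons]; exact ih (V_gateOp hF g)

/-- A function of `k+1`-tuples not depending on coordinate `i`. -/
theorem unif_indep {k : ℕ} {w : List (Gate α)} (hw : Unif k w) (i : Fin (k + 1))
    (F : Fn (k + 1) α) (hF : ∀ x a, F (Function.update x i a) = F x) [Nonempty α] :
    opL (k + 1) w F = avg (k + 1) α F := by
  obtain ⟨a0⟩ := ‹Nonempty α›
  have hpull : F = pull (i.succAbove) (fun y : Fin k → α => F (i.insertNth a0 y)) := by
    funext x
    rw [pull_apply]
    have : (i.insertNth a0 (fun j => x (i.succAbove j)) : Fin (k+1) → α)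
        = Function.update x i a0 := by
      funext j
      refine Fin.succAboveCases i ?_ (fun j => ?_) j
      · simp
      · simp
    rw [this, hF]
  rw [hpull, opL_pull, avg_pull, hw]

theorem unif_noninj {k : ℕ} {w : List (Gate α)} (hw : Unif k w) (F : Fn (k + 1) α)
    (x : Fin (k + 1) → α) (hx : ¬ Function.Injective x) :
    opL (k + 1) w F x = avg (k + 1) α F x := by
  have : ∃ i j, x i = x j ∧ i ≠ j := by
    by_contra hcon
    push Not at hcon
    exact hx (fun i j h => hcon i j h)
  obtain ⟨i, j, hij, hne⟩ := this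
  obtain ⟨j', hj'⟩ := Fin.exists_succAbove_eq (Ne.symm hne)
  -- c : Fin (k+1) → Fin k sending i to j' and succAbove l to l
  let c : Fin (k + 1) → Fin k := fun l => i.insertNth (α := fun _ => Fin k) j' (fun l => l) l
  have hc : ∀ l, x (i.succAbove (c l)) = x l := by
    intro l
    refine Fin.succAboveCases i ?_ (fun l => ?_) l
    · simp only [c, Fin.insertNth_apply_same]
      rw [hj', hij]
    · simp only [c, Fin.insertNth_apply_succAbove]
  have key : ∀ G : Fn (k + 1) α, G x = pull c G (fun l => x (i.succAbove l)) := by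
    intro G
    rw [pull_apply]
    congr 1
    funext l
    exact (hc l).symm
  rw [key (opL (k + 1) w F), key (avg (k + 1) α F), ← opL_pull, ← avg_pull, hw]

theorem unif_diff_mem {k : ℕ} {w : List (Gate α)} (hw : Unif k w) (F : Fn (k + 1) α)
    [Nonempty α] : opL (k + 1) w F - avg (k + 1) α F ∈ V (k + 1) α := by
  refine ⟨fun x hx => ?_, fun i => ?_⟩
  · rw [Pi.sub_apply, unif_noninj hw F x hx, sub_self]
  · rw [map_sub, marg_opL, marg_avg, unif_indep hw i (marg i F), sub_self]
    intro x a
    rw [marg_apply, marg_apply]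
    simp

theorem unif_of_kill {k : ℕ} {w z : List (Gate α)} (hw : Unif k w)
    (hz : ∀ G ∈ V (k + 1) α, opL (k + 1) z G = 0) [Nonempty α] : Unif (k + 1) (w ++ z) := by
  intro F
  have h := hz _ (unif_diff_mem hw F)
  rw [map_sub, opL_avg, sub_eq_zero] at h
  rw [opL_append, h]

theorem unif_zero : Unif 0 ([] : List (Gate α)) := by
  intro F
  funext x
  rw [avg_apply, opL_nil]
  have : ∀ σ : Perm α, F (fun i => σ (x i)) = F x := by
    intro σ; congr 1; funext i; exact i.elim0
  simp only [this, Finset.sum_const, Finset.card_univ, nsmul_eq_mul]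
  rw [← mul_assoc, inv_mul_cancel₀, one_mul]
  exact_mod_cast Fintype.card_ne_zero

/-- permuting coordinates -/
theorem V_pull {k : ℕ} {F : Fn k α} (hF : F ∈ V k α) (π : Perm (Fin k)) : pull π F ∈ V k α := by
  refine ⟨fun x hx => ?_, fun i => ?_⟩
  · rw [pull_apply]
    apply hF.1
    intro h
    apply hx
    have h2 : Function.Injective ((fun i => x (π i)) ∘ π.symm) := h.comp π.symm.injective
    have h3 : (fun i => x (π i)) ∘ π.symm = x := by funext j; simp
    rwa [h3] at h2
  · funext x
    rw [marg_apply, Pi.zero_apply]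
    have h := congrFun (hF.2 (π.symm i)) (fun j => x (π j))
    rw [marg_apply, Pi.zero_apply] at h
    rw [← h]
    apply Finset.sum_congr rfl
    intro a _
    rw [pull_apply]
    congr 1
    funext j
    by_cases hj : j = π.symm i
    · subst hj; simp
    · have : π j ≠ i := fun h => hj (by rw [← h]; simp)
      rw [Function.update_of_ne this, Function.update_of_ne hj]

end Pool.Agent.Helper97K9.Shuffle
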