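import Pool.Agent.Helper97K9.Shuffle.SumId

set_option linter.unusedSectionVars false
set_option linter.unusedVariables false

namespace Pool.Agent.Helper97K9.Shuffle

open Finset Equiv

variable {α : Type*} [Fintype α] [DecidableEq α]

theorem uniq {k : ℕ} {w : Fn k α} (hw : w ∈ V k α) (X : Finset α)
    (hinv : ∀ a b, a ∉ X → b ∉ X → act k (swap a b) w = w)
    (h0 : ∀ z, (∀ i, z i ∈ X) → w z = 0) : w = 0 := by
  have main : ∀ (m : ℕ) (z : Fin k → α), (univ.filter (fun i => z i ∉ X)).card = m → w z = 0 := by
    intro m
    induction m using Nat.strong_induction_on with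
    | _ m ih =>
      intro z hz
      by_cases hinj : Function.Injective z
      swap
      · exact hw.1 z hinj
      by_cases hall : ∀ i, z i ∈ X
      · exact h0 z hall
      push Not at hall
      obtain ⟨i, hi⟩ := hall
      have h := congrFun (hw.2 i) z
      rw [marg_apply, Pi.zero_apply] at h
      let S : Finset α := univ.filter (fun a => a ∉ X ∧ (a = z i ∨ a ∉ univ.image z))
      have hval : ∀ a, w (Function.update z i a) = if a ∈ S then w z else 0 := by
        intro a
        by_cases haX : a ∈ X
        · have haS : a ∉ S := by simp [S, haX]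
          rw [if_neg haS]
          refine ih _ ?_ (Function.update z i a) rfl
          rw [← hz]
          apply Finset.card_lt_card
          rw [Finset.ssubset_iff_of_subset]
          · refine ⟨i, by simp [hi], by simp [haX]⟩
          · intro j hj
            simp only [mem_filter, mem_univ, true_and] at hj ⊢
            by_cases hji : j = i
            · subst hji; exact hi
            · rwa [Function.update_of_ne hji] at hj
        · by_cases hai : a = z i
          · have haS : a ∈ S := by simp [S, haX, hai]; rw [← hai]; exact haX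
            rw [if_pos haS, hai, Function.update_eq_self]
          · by_cases haz : a ∈ univ.image z
            · have haS : a ∉ S := by
                simp only [S, mem_filter, mem_univ, true_and]
                tauto
              rw [if_neg haS]
              obtain ⟨j, -, hj⟩ := mem_image.1 haz
              apply hw.1
              rw [← hj]
              apply not_inj_update
              rintro rfl
              exact hai hj.symm
            · have haS : a ∈ S := by
                simp only [S, mem_filter, mem_univ, true_and]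
                tauto
              rw [if_pos haS, ← swap_comp_update hinj i (mem_compl.2 haz)]
              exact congrFun (hinv (z i) a hi haX) z
      simp only [hval] at h
      rw [← Finset.sum_filter, Finset.sum_const, nsmul_eq_mul] at h
      rcases mul_eq_zero.1 h with h | h
      · exfalso
        have : ((univ.filter (fun a => a ∈ S)).card) = 0 := by exact_mod_cast h
        rw [Finset.card_eq_zero] at this
        have hzi : z i ∈ univ.filter (fun a => a ∈ S) := by
          simp [S, hi]
        rw [this] at hzi
        simp at hzi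
      · exact h
  funext z
  exact main _ z rfl

theorem act_pull {k : ℕ} (σ : Perm α) (π : Fin k → Fin k) (F : Fn k α) :
    act k σ (pull π F) = pull π (act k σ F) := rfl

theorem cross_sum {k : ℕ} {u : Fn k α} (hu : u ∈ V k α) (X : Finset α) (hX : X.card = k)
    (hinv : ∀ a b, a ∉ X → b ∉ X → act k (swap a b) u = u) :
    ∑ a ∈ X, ∑ b ∈ Xᶜ, act k (swap a b) u = (-(k:ℝ)) • u := by
  set W : Fn k α := ∑ i, ∑ j, pull (swap i j : Perm (Fin k)) u
    - ∑ a ∈ X, ∑ b ∈ X, act k (swap a b) u with hW
  have hWV : W ∈ V k α := by
    rw [hW]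
    apply Submodule.sub_mem
    · exact Submodule.sum_mem _ (fun i _ => Submodule.sum_mem _ (fun j _ => V_pull hu _))
    · exact Submodule.sum_mem _ (fun i _ => Submodule.sum_mem _ (fun j _ => V_act hu _))
  have hW0 : W = 0 := by
    apply uniq hWV X
    · intro c d hc hd
      rw [hW, map_sub]
      congr 1
      · simp only [map_sum]
        apply Finset.sum_congr rfl
        intro i _
        apply Finset.sum_congr rfl
        intro j _
        rw [act_pull, hinv c d hc hd]
      · simp only [map_sum]
        apply Finset.sum_congr rfl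
        intro a ha
        apply Finset.sum_congr rfl
        intro b hb
        rw [← act_mul]
        have hcomm : swap a b * swap c d = swap c d * swap a b := by
          apply Equiv.Perm.Disjoint.commute
          rw [Equiv.Perm.disjoint_iff_disjoint_support]
          rw [Finset.disjoint_left]
          intro x hx hx2
          rw [Equiv.Perm.mem_support] at hx hx2
          have h1 : x = a ∨ x = b := by
            by_contra hcon
            push Not at hcon
            exact hx (swap_apply_of_ne_of_ne hcon.1 hcon.2)
          have h2 : x = c ∨ x = d := by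
            by_contra hcon
            push Not at hcon
            exact hx2 (swap_apply_of_ne_of_ne hcon.1 hcon.2)
          have h3 : x ∈ X := by rcases h1 with rfl | rfl <;> assumption
          rcases h2 with rfl | rfl
          · exact hc h3
          · exact hd h3
        rw [hcomm, act_mul, hinv c d hc hd]
    · intro z hz
      by_cases hinj : Function.Injective z
      swap
      · exact hWV.1 z hinj
      have himg : univ.image z = X := by
        apply Finset.eq_of_subset_of_card_le
        · intro a ha
          obtain ⟨i, -, rfl⟩ := mem_image.1 ha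
          exact hz i
        · rw [hX, Finset.card_image_of_injective _ hinj, Finset.card_univ, Fintype.card_fin]
      rw [hW]
      simp only [Pi.sub_apply, Finset.sum_apply, pull_apply, act_apply]
      rw [← himg, Finset.sum_image (fun i _ j _ h => hinj h)]
      rw [sub_eq_zero]
      apply Finset.sum_congr rfl
      intro i _
      rw [Finset.sum_image (fun i _ j _ h => hinj h)]
      apply Finset.sum_congr rfl
      intro j _
      rw [swap_comp_inj hinj]
  have hall := sum_swap_fun hu
  have hsplit : ∑ a, ∑ b, act k (swap a b) u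
      = ∑ a ∈ X, ∑ b ∈ X, act k (swap a b) u + ∑ a ∈ X, ∑ b ∈ Xᶜ, act k (swap a b) u
        + (∑ a ∈ Xᶜ, ∑ b ∈ X, act k (swap a b) u + ∑ a ∈ Xᶜ, ∑ b ∈ Xᶜ, act k (swap a b) u) := by
    rw [← Finset.sum_add_sum_compl X (fun a => ∑ b, act k (swap a b) u),
      ← Finset.sum_add_distrib, ← Finset.sum_add_distrib]
    congr 1
    · exact Finset.sum_congr rfl (fun a _ => (Finset.sum_add_sum_compl X _).symm)
    · exact Finset.sum_congr rfl (fun a _ => (Finset.sum_add_sum_compl X _).symm)
  have hsym : ∑ a ∈ Xᶜ, ∑ b ∈ X, act k (swap a b) u = ∑ a ∈ X, ∑ b ∈ Xᶜ, act k (swap a b) u := by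
    rw [Finset.sum_comm]
    simp only [swap_comm]
  have hYY : ∑ a ∈ Xᶜ, ∑ b ∈ Xᶜ, act k (swap a b) u = ((Fintype.card α : ℝ) - k) ^ 2 • u := by
    have : ∀ a ∈ Xᶜ, ∑ b ∈ Xᶜ, act k (swap a b) u = ((Fintype.card α : ℝ) - k) • u := by
      intro a ha
      rw [Finset.sum_congr rfl (fun b hb => hinv a b (mem_compl.1 ha) (mem_compl.1 hb)),
        Finset.sum_const, Finset.card_compl, hX, ← Nat.cast_smul_eq_nsmul ℝ, Nat.cast_sub]
      rw [← hX]; exact Finset.card_le_univ X
    rw [Finset.sum_congr rfl this, Finset.sum_const, Finset.card_compl, hX,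
      ← Nat.cast_smul_eq_nsmul ℝ, Nat.cast_sub (by rw [← hX]; exact Finset.card_le_univ X),
      smul_smul, sq]
  have hXX : ∑ i, ∑ j, pull (swap i j : Perm (Fin k)) u = ∑ a ∈ X, ∑ b ∈ X, act k (swap a b) u := by
    rw [hW, sub_eq_zero] at hW0; exact hW0
  rw [hsplit, hsym, hYY, hXX] at hall
  set T := ∑ a ∈ X, ∑ b ∈ Xᶜ, act k (swap a b) u
  set S := ∑ a ∈ X, ∑ b ∈ X, act k (swap a b) u
  funext x
  have h := congrFun hall x
  simp only [Pi.add_apply, Pi.smul_apply, smul_eq_mul] at h ⊢
  linarith

theorem exists_neg {k : ℕ} (hk : 1 ≤ k) {u : Fn k α} (hu : u ∈ V k α) (hu0 : u ≠ 0)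
    (X : Finset α) (hX : X.card = k)
    (hinv : ∀ a b, a ∉ X → b ∉ X → act k (swap a b) u = u) :
    ∃ a b : α, ip u (act k (swap a b) u) ≤ - (ip u u / (Fintype.card α : ℝ)) := by
  by_contra hcon
  push Not at hcon
  have hpos : 0 < ip u u := lt_of_le_of_ne (ip_self_nonneg u) (fun h => hu0 (ip_self_eq_zero.1 h.symm))
  have h1 : ip u (∑ a ∈ X, ∑ b ∈ Xᶜ, act k (swap a b) u) = -(k:ℝ) * ip u u := by
    rw [cross_sum hu X hX hinv, ip_smul_right]
  have h2 : ip u (∑ a ∈ X, ∑ b ∈ Xᶜ, act k (swap a b) u)
      = ∑ a ∈ X, ∑ b ∈ Xᶜ, ip u (act k (swap a b) u) := by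
    unfold ip
    simp only [Finset.sum_apply, Finset.mul_sum]
    rw [Finset.sum_comm]
    apply Finset.sum_congr rfl
    intro a _
    rw [Finset.sum_comm]
  rw [h2] at h1
  have hkn : k ≤ Fintype.card α := by rw [← hX]; exact Finset.card_le_univ X
  have hn : (0:ℝ) < (Fintype.card α : ℝ) := by
    have : 0 < Fintype.card α := by omega
    exact_mod_cast this
  have h3 : ∑ a ∈ X, ∑ b ∈ Xᶜ, (-(ip u u / (Fintype.card α : ℝ)))
      ≤ ∑ a ∈ X, ∑ b ∈ Xᶜ, ip u (act k (swap a b) u) :=
    Finset.sum_le_sum (fun a _ => Finset.sum_le_sum (fun b _ => (hcon a b).le))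
  have hk1 : (1:ℝ) ≤ k := by exact_mod_cast hk
  rw [h1] at h3
  simp only [Finset.sum_const, nsmul_eq_mul, Finset.card_compl, hX] at h3
  rw [Nat.cast_sub hkn] at h3
  have h4 : (k:ℝ) * (((Fintype.card α : ℝ) - k) * (-(ip u u / (Fintype.card α : ℝ))))
      = -(k:ℝ) * ip u u + (k:ℝ) ^ 2 / (Fintype.card α : ℝ) * ip u u := by
    field_simp; ring
  rw [h4] at h3
  have h5 : 0 < (k:ℝ) ^ 2 / (Fintype.card α : ℝ) * ip u u := by positivity
  linarith

end Pool.Agent.Helper97K9.Shuffle
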