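import Pool.Agent.Helper97K9.Shuffle.Approx

set_option linter.unusedSectionVars false
set_option linter.unusedVariables false

namespace Pool.Agent.Helper97K9.Shuffle

open Finset Equiv Module

variable {α : Type*} [Fintype α] [DecidableEq α]

theorem continuous_ip {k : ℕ} (L1 L2 : Fn k α →ₗ[ℝ] Fn k α) :
    Continuous (fun v : Fn k α => ip (L1 v) (L2 v)) := by
  unfold ip
  have h1 : Continuous L1 := L1.continuous_of_finiteDimensional
  have h2 : Continuous L2 := L2.continuous_of_finiteDimensional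
  refine continuous_finsetSum _ (fun x _ => ?_)
  exact ((continuous_apply x).comp h1).mul ((continuous_apply x).comp h2)

theorem isCompact_sphere {k : ℕ} (I : Submodule ℝ (Fn k α)) :
    IsCompact {v : Fn k α | v ∈ I ∧ ip v v = 1} := by
  apply Metric.isCompact_of_isClosed_isBounded
  · apply IsClosed.inter
    · exact I.closed_of_finiteDimensional
    · exact isClosed_singleton.preimage
        (continuous_ip (LinearMap.id) (LinearMap.id) : Continuous (fun v : Fn k α => ip v v))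
  · rw [isBounded_iff_forall_norm_le]
    refine ⟨1, ?_⟩
    rintro v ⟨-, hv⟩
    rw [pi_norm_le_iff_of_nonneg (by norm_num)]
    intro x
    have := sq_le_ip v x
    rw [hv, ← sq] at this
    rw [Real.norm_eq_abs]
    exact abs_le_one_iff_mul_self_le_one.2 (by rw [← sq]; exact this)

/-- The palindromic word. -/
def pal (A : List (Gate α)) (g : Gate α) : List (Gate α) := A ++ ([g] ++ A.reverse)

theorem opL_pal {k : ℕ} (A : List (Gate α)) (g : Gate α) (F : Fn k α) :
    opL k (pal A g) F = opL k A.reverse (gateOp k g (opL k A F)) := by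
  unfold pal
  rw [opL_append, opL_append, opL_single]

theorem ip_pal {k : ℕ} (A : List (Gate α)) (g : Gate α) (F G : Fn k α) :
    ip F (opL k (pal A g) G) = ip (opL k A F) (gateOp k g (opL k A G)) := by
  rw [opL_pal, ip_opL]

theorem ip_pal_symm {k : ℕ} (A : List (Gate α)) (g : Gate α) (F G : Fn k α) :
    ip F (opL k (pal A g) G) = ip G (opL k (pal A g) F) := by
  rw [ip_pal, ip_pal, ← ip_gateOp, ip_comm]

theorem finrank_map_lt {k : ℕ} (I : Submodule ℝ (Fn k α)) (Φ : Fn k α →ₗ[ℝ] Fn k α)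
    {v : Fn k α} (hv : v ∈ I) (hv0 : v ≠ 0) (hΦ : Φ v = 0) :
    finrank ℝ (I.map Φ) < finrank ℝ I := by
  have h1 := (Φ.domRestrict I).finrank_range_add_finrank_ker
  have h2 : LinearMap.range (Φ.domRestrict I) = I.map Φ := by
    rw [LinearMap.range_domRestrict]
  rw [h2] at h1
  have h3 : 0 < finrank ℝ (LinearMap.ker (Φ.domRestrict I)) := by
    have hmem : (⟨v, hv⟩ : I) ∈ LinearMap.ker (Φ.domRestrict I) := by
      rw [LinearMap.mem_ker, LinearMap.domRestrict_apply]; exact hΦ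
    apply Nat.pos_of_ne_zero
    intro h
    rw [Submodule.finrank_eq_zero] at h
    rw [h, Submodule.mem_bot] at hmem
    apply hv0
    exact congrArg (fun z => ((z : I) : Fn k α)) hmem
  omega

theorem drop_of_orth {k : ℕ} (X A : List (Gate α)) (g : Gate α) {v : Fn k α}
    (hv : v ∈ (V k α).map (opL k X)) (hv0 : v ≠ 0)
    (horth : ∀ u ∈ (V k α).map (opL k X), ip u (opL k (pal A g) v) = 0) :
    finrank ℝ ((V k α).map (opL k (X ++ (pal A g ++ X.reverse))))
      < finrank ℝ ((V k α).map (opL k X)) := by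
  have hmap : (V k α).map (opL k (X ++ (pal A g ++ X.reverse)))
      = ((V k α).map (opL k X)).map (opL k (pal A g ++ X.reverse)) := by
    rw [← Submodule.map_comp]
    congr 1
    refine LinearMap.ext (fun F => ?_)
    rw [LinearMap.comp_apply, opL_append]
  rw [hmap]
  apply finrank_map_lt _ _ hv hv0
  rw [← ip_self_eq_zero]
  obtain ⟨v', hv'V, hv'⟩ := hv
  have hvV : v ∈ V k α := by rw [← hv']; exact V_opL hv'V X
  have hyV : opL k (pal A g ++ X.reverse) v ∈ V k α := V_opL hvV _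
  set y := opL k (pal A g ++ X.reverse) v with hy
  have h1 : ip y y = ip (opL k X y) (opL k (pal A g) v) := by
    conv_lhs => rw [hy]
    rw [← hy, ip_opL X y]
    congr 1
    rw [hy, opL_append]
  rw [h1]
  exact horth _ (Submodule.mem_map_of_mem hyV)

theorem exists_param {k : ℕ} (I : Submodule ℝ (Fn k α)) (A : List (Gate α)) (a b : α)
    {v0 : Fn k α} (hv0I : v0 ∈ I) (hv00 : v0 ≠ 0)
    (hneg : ip (opL k A v0) (act k (swap a b) (opL k A v0)) < 0) :
    ∃ (p : ℝ), 0 ≤ p ∧ p ≤ 1 ∧ ∃ v ∈ I, v ≠ 0 ∧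
      ∀ u ∈ I, ip u (opL k (pal A ⟨a, b, p⟩) v) = 0 := by
  by_cases hcase : ∃ v1 ∈ I, v1 ≠ 0 ∧ opL k A v1 = 0
  · obtain ⟨v1, h1, h2, h3⟩ := hcase
    refine ⟨0, le_rfl, zero_le_one, v1, h1, h2, fun u _ => ?_⟩
    rw [ip_pal, h3, map_zero, ip_zero_right]
  push Not at hcase
  set Q : Fn k α → ℝ := fun v => ip (opL k A v) (opL k A v) with hQ
  set T : Fn k α → ℝ := fun v => ip (opL k A v) (act k (swap a b) (opL k A v)) with hT
  have hQpos : ∀ v ∈ I, v ≠ 0 → 0 < Q v := by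
    intro v hv hv0
    exact lt_of_le_of_ne (ip_self_nonneg _) (fun h => hcase v hv hv0 (ip_self_eq_zero.1 h.symm))
  have hQsc : ∀ (c : ℝ) v, Q (c • v) = c ^ 2 * Q v := by
    intro c v
    simp only [hQ, map_smul, ip_smul_left, ip_smul_right]; ring
  have hTsc : ∀ (c : ℝ) v, T (c • v) = c ^ 2 * T v := by
    intro c v
    simp only [hT, map_smul, ip_smul_left, ip_smul_right]; ring
  have hQc : Continuous Q := continuous_ip _ _
  have hTc : Continuous T := continuous_ip (opL k A) ((act k (swap a b)) ∘ₗ (opL k A))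
  set K : Set (Fn k α) := {v : Fn k α | v ∈ I ∧ ip v v = 1} with hK
  have hKc : IsCompact K := isCompact_sphere I
  have hKne : ∀ v ∈ K, v ≠ 0 := by
    rintro v ⟨-, hv⟩ rfl
    rw [ip_zero_left] at hv; norm_num at hv
  have hnorm : ∀ v ∈ I, v ≠ 0 → ∃ c : ℝ, c ≠ 0 ∧ c • v ∈ K := by
    intro v hv hv0
    have hpos : 0 < ip v v :=
      lt_of_le_of_ne (ip_self_nonneg v) (fun h => hv0 (ip_self_eq_zero.1 h.symm))
    have hs : 0 < Real.sqrt (ip v v) := Real.sqrt_pos.2 hpos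
    refine ⟨(Real.sqrt (ip v v))⁻¹, inv_ne_zero hs.ne', I.smul_mem _ hv, ?_⟩
    rw [ip_smul_left, ip_smul_right]
    rw [← mul_assoc, ← mul_inv, Real.mul_self_sqrt hpos.le, inv_mul_cancel₀ hpos.ne']
  obtain ⟨c0, hc0, hc0K⟩ := hnorm v0 hv0I hv00
  have hfc : ContinuousOn (fun v => (Q v - T v) / Q v) K := by
    apply ContinuousOn.div
    · exact (hQc.sub hTc).continuousOn
    · exact hQc.continuousOn
    · intro v hv
      exact (hQpos v hv.1 (hKne v hv)).ne'
  obtain ⟨vs, hvsK, hvs⟩ := hKc.exists_isMaxOn ⟨_, hc0K⟩ hfc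
  set κ : ℝ := (Q vs - T vs) / Q vs with hκ
  have hvsI : vs ∈ I := hvsK.1
  have hvs0 : vs ≠ 0 := hKne vs hvsK
  have hratio : ∀ v ∈ I, v ≠ 0 → (Q v - T v) / Q v ≤ κ := by
    intro v hv hv0
    obtain ⟨c, hc, hcK⟩ := hnorm v hv hv0
    have h := hvs hcK
    simp only [Set.mem_ofPred_eq] at h
    rw [hQsc, hTsc, ← mul_sub, mul_div_mul_left _ _ (pow_ne_zero 2 hc)] at h
    exact h
  have hκ1 : 1 < κ := by
    refine lt_of_lt_of_le ?_ (hratio v0 hv0I hv00)
    rw [lt_div_iff₀ (hQpos v0 hv0I hv00)]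
    have : T v0 < 0 := hneg
    linarith
  have hκ0 : 0 < κ := by linarith
  set p : ℝ := 1 / κ with hp
  have hp0 : 0 < p := by positivity
  have hp1 : p ≤ 1 := by rw [hp, div_le_one hκ0]; exact hκ1.le
  have hB : ∀ v, ip v (opL k (pal A ⟨a, b, p⟩) v) = Q v - p * (Q v - T v) := by
    intro v
    rw [ip_pal]
    unfold gateOp
    simp only [LinearMap.add_apply, LinearMap.smul_apply, LinearMap.id_apply, ip_add_right,
      ip_smul_right, hQ, hT]
    ring
  have hBnn : ∀ v ∈ I, 0 ≤ ip v (opL k (pal A ⟨a, b, p⟩) v) := by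
    intro v hv
    by_cases hv0 : v = 0
    · subst hv0; rw [ip_zero_left]
    rw [hB]
    have h1 := hratio v hv hv0
    rw [div_le_iff₀ (hQpos v hv hv0)] at h1
    have h2 : p * (Q v - T v) ≤ p * (κ * Q v) := mul_le_mul_of_nonneg_left h1 hp0.le
    have h3 : p * (κ * Q v) = Q v := by rw [hp]; field_simp
    linarith
  have hBs : ip vs (opL k (pal A ⟨a, b, p⟩) vs) = 0 := by
    rw [hB, hp, hκ]
    have h1 := hQpos vs hvsI hvs0
    have h2 : Q vs - T vs ≠ 0 := by
      intro h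
      rw [hκ, h, zero_div] at hκ0
      exact lt_irrefl _ hκ0
    field_simp
    ring
  refine ⟨p, hp0.le, hp1, vs, hvsI, hvs0, fun u hu => ?_⟩
  have hquad : ∀ s : ℝ, 0 ≤ ip u (opL k (pal A ⟨a, b, p⟩) u) * (s * s)
      + 2 * ip u (opL k (pal A ⟨a, b, p⟩) vs) * s + 0 := by
    intro s
    have h := hBnn (vs + s • u) (I.add_mem hvsI (I.smul_mem s hu))
    rw [map_add, map_smul, ip_add_left, ip_add_right, ip_add_right, ip_smul_left, ip_smul_left,
      ip_smul_right, ip_smul_right, hBs, ip_pal_symm A _ vs u] at h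
    linarith
  have hd := discrim_le_zero hquad
  rw [discrim] at hd
  nlinarith [sq_nonneg (ip u (opL k (pal A ⟨a, b, p⟩) vs))]

theorem rank_step {k : ℕ} (hn : k + 2 ≤ Fintype.card α) (ℓ t : ℕ)
    (hHas : Has k (Fin (Fintype.card α - (k + 1))) ℓ)
    (ht : (1 - 1 / ((Fintype.card α : ℝ))) ^ t *
      (36 * (Fintype.card α : ℝ) ^ (k + 3)) ≤ 1)
    (X : List (Gate α)) (hX : Valid X) (hne : (V (k + 1) α).map (opL (k + 1) X) ≠ ⊥) :
    ∃ X' : List (Gate α), Valid X' ∧ X'.length ≤ 2 * X.length + (2 * (ℓ + t) + 1) ∧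
      finrank ℝ ((V (k + 1) α).map (opL (k + 1) X'))
        < finrank ℝ ((V (k + 1) α).map (opL (k + 1) X)) := by
  obtain ⟨v0, hv0, hv00⟩ := Submodule.exists_mem_ne_zero_of_ne_bot hne
  have hv0V : v0 ∈ V (k + 1) α := by
    obtain ⟨v', hv'V, rfl⟩ := hv0
    exact V_opL hv'V X
  obtain ⟨A, a, b, hAv, hAl, hneg⟩ := neg_word hn ℓ t hHas ht hv0V hv00
  obtain ⟨p, hp0, hp1, v, hvI, hvne, horth⟩ := exists_param _ A a b hv0 hv00 hneg
  refine ⟨X ++ (pal A ⟨a, b, p⟩ ++ X.reverse), ?_, ?_, drop_of_orth X A ⟨a, b, p⟩ hvI hvne horth⟩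
  · refine hX.append (Valid.append (hAv.append (Valid.append (Valid.single ⟨hp0, hp1⟩) hAv.reverse)) hX.reverse)
  · simp only [pal, List.length_append, List.length_reverse, List.length_cons, List.length_nil]
    omega

theorem rank_kill {k : ℕ} (hn : k + 2 ≤ Fintype.card α) (ℓ t : ℕ)
    (hHas : Has k (Fin (Fintype.card α - (k + 1))) ℓ)
    (ht : (1 - 1 / ((Fintype.card α : ℝ))) ^ t *
      (36 * (Fintype.card α : ℝ) ^ (k + 3)) ≤ 1) (r : ℕ)
    (X : List (Gate α)) (hX : Valid X)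
    (hr : finrank ℝ ((V (k + 1) α).map (opL (k + 1) X)) ≤ r) :
    ∃ X' : List (Gate α), Valid X' ∧ X'.length ≤ 2 ^ r * (X.length + (2 * (ℓ + t) + 1)) ∧
      ∀ G ∈ V (k + 1) α, opL (k + 1) X' G = 0 := by
  induction r generalizing X with
  | zero =>
    refine ⟨X, hX, by omega, ?_⟩
    have h0 : (V (k + 1) α).map (opL (k + 1) X) = ⊥ := by
      rw [← Submodule.finrank_eq_zero (R := ℝ)]; omega
    intro G hG
    have : opL (k + 1) X G ∈ (V (k + 1) α).map (opL (k + 1) X) := Submodule.mem_map_of_mem hG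
    rw [h0] at this
    exact (Submodule.mem_bot ℝ).1 this
  | succ r ih =>
    by_cases hne : (V (k + 1) α).map (opL (k + 1) X) = ⊥
    · refine ⟨X, hX, ?_, ?_⟩
      · have : 1 ≤ 2 ^ (r + 1) := Nat.one_le_two_pow
        nlinarith
      · intro G hG
        have : opL (k + 1) X G ∈ (V (k + 1) α).map (opL (k + 1) X) := Submodule.mem_map_of_mem hG
        rw [hne] at this
        exact (Submodule.mem_bot ℝ).1 this
    · obtain ⟨X1, hX1v, hX1l, hX1⟩ := rank_step hn ℓ t hHas ht X hX hne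
      obtain ⟨X', h1, h2, h3⟩ := ih X1 hX1v (by omega)
      refine ⟨X', h1, h2.trans ?_, h3⟩
      rw [pow_succ]
      have : 2 ^ r * (X1.length + (2 * (ℓ + t) + 1))
          ≤ 2 ^ r * (2 * (X.length + (2 * (ℓ + t) + 1))) := Nat.mul_le_mul_left _ (by omega)
      calc _ ≤ _ := this
        _ = _ := by ring

/-- For small alphabets `V = ⊥`. -/
theorem V_eq_zero {k : ℕ} (hn : Fintype.card α ≤ k + 1) {G : Fn (k + 1) α}
    (hG : G ∈ V (k + 1) α) : G = 0 := by
  funext x
  by_cases hx : Function.Injective x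
  swap
  · exact hG.1 x hx
  have h := sum_update_compl hG hx 0
  have hempty : (univ.image x)ᶜ = ∅ := by
    rw [← Finset.card_eq_zero, Finset.card_compl, Finset.card_image_of_injective _ hx,
      Finset.card_univ, Fintype.card_fin]
    omega
  rw [hempty, Finset.sum_empty] at h
  rw [Pi.zero_apply]; linarith

/-- The main reduction. -/
theorem has_succ {k : ℕ} [Nonempty α] (hn : k + 2 ≤ Fintype.card α) (ℓ₁ ℓ t : ℕ)
    (h1 : Has k α ℓ₁)
    (hHas : Has k (Fin (Fintype.card α - (k + 1))) ℓ)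
    (ht : (1 - 1 / ((Fintype.card α : ℝ))) ^ t *
      (36 * (Fintype.card α : ℝ) ^ (k + 3)) ≤ 1) (r : ℕ)
    (X : List (Gate α)) (hX : Valid X)
    (hr : finrank ℝ ((V (k + 1) α).map (opL (k + 1) X)) ≤ r) :
    Has (k + 1) α (ℓ₁ + 2 ^ r * (X.length + (2 * (ℓ + t) + 1))) := by
  obtain ⟨w, hwv, hwu, hwl⟩ := h1
  obtain ⟨X', h1, h2, h3⟩ := rank_kill hn ℓ t hHas ht r X hX hr
  refine ⟨w ++ X', hwv.append h1, unif_of_kill hwu h3, ?_⟩
  rw [List.length_append]; omega

theorem has_succ_small {k : ℕ} [Nonempty α] (hn : Fintype.card α ≤ k + 1) (ℓ : ℕ)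
    (h : Has k α ℓ) : Has (k + 1) α ℓ := by
  obtain ⟨w, hwv, hwu, hwl⟩ := h
  refine ⟨w ++ [], hwv.append Valid.nil, unif_of_kill hwu ?_, by simpa using hwl⟩
  intro G hG
  rw [V_eq_zero hn hG, map_zero]

end Pool.Agent.Helper97K9.Shuffle
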