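import Pool.Agent.Helper97K9.Shuffle.Types

set_option linter.unusedSectionVars false
set_option linter.unusedVariables false

namespace Pool.Agent.Helper97K9.Shuffle

open Finset Equiv Module

theorem has_zero (n : ℕ) : Has 0 (Fin n) 0 := ⟨[], Valid.nil, unif_zero, le_rfl⟩

theorem has_exists (k n : ℕ) : ∃ ℓ, Has k (Fin n) ℓ := by
  induction k generalizing n with
  | zero => exact ⟨0, has_zero n⟩
  | succ k ih =>
    rcases Nat.eq_zero_or_pos n with rfl | hn
    · refine ⟨0, [], Valid.nil, ?_, le_rfl⟩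
      intro F
      funext x
      exact (x 0).elim0
    have : Nonempty (Fin n) := ⟨⟨0, hn⟩⟩
    by_cases hk : n ≤ k + 1
    · obtain ⟨ℓ, hℓ⟩ := ih n
      exact ⟨ℓ, has_succ_small (by rwa [Fintype.card_fin]) ℓ hℓ⟩
    · push Not at hk
      obtain ⟨ℓ₁, h1⟩ := ih n
      obtain ⟨ℓ, h2⟩ := ih (n - (k + 1))
      have hnpos : (0:ℝ) < (n:ℝ) := by exact_mod_cast hn
      have hn1 : (1:ℝ) ≤ (n:ℝ) := by exact_mod_cast hn
      obtain ⟨t, ht⟩ := exists_pow_lt_of_lt_one (x := 1 / (36 * (n:ℝ) ^ (k + 3)))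
        (y := 1 - 1 / (n:ℝ)) (by positivity) (by
          have : 0 < 1 / (n:ℝ) := by positivity
          linarith)
      refine ⟨_, has_succ (by rw [Fintype.card_fin]; omega) ℓ₁ ℓ t h1 (by rwa [Fintype.card_fin]) ?_
        _ [] Valid.nil le_rfl⟩
      rw [Fintype.card_fin]
      rw [lt_div_iff₀ (by positivity)] at ht
      exact ht.le

theorem exists_t (k n : ℕ) (hn : 3 ≤ n) : ∃ t : ℕ,
    (1 - 1 / (n:ℝ)) ^ t * (36 * (n:ℝ) ^ (k + 3)) ≤ 1 ∧
      (t:ℝ) ≤ (k + 8) * ((n:ℝ) * Real.log n) := by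
  have hn3 : (3:ℝ) ≤ (n:ℝ) := by exact_mod_cast hn
  have hn0 : (0:ℝ) < (n:ℝ) := by linarith
  have hlog : 1 ≤ Real.log n := by
    rw [Real.le_log_iff_exp_le hn0]
    have := Real.exp_one_lt_d9
    linarith
  have hlog36 : Real.log 36 ≤ 4 := by
    rw [Real.log_le_iff_le_exp (by norm_num)]
    have h1 := Real.exp_one_gt_d9
    have h2 : Real.exp 4 = Real.exp 1 ^ 4 := by
      rw [← Real.exp_nat_mul]; norm_num
    rw [h2]
    have h3 : (2.7182818283:ℝ) ^ 4 ≤ Real.exp 1 ^ 4 :=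
      pow_le_pow_left₀ (by norm_num) h1.le 4
    refine le_trans ?_ h3
    norm_num
  set s : ℝ := n * ((k + 3) * Real.log n + Real.log 36) with hs
  have hlog36' : 0 ≤ Real.log 36 := Real.log_nonneg (by norm_num)
  have hs0 : 0 ≤ s := by positivity
  refine ⟨⌈s⌉₊, ?_, ?_⟩
  · have h1 : 1 - 1 / (n:ℝ) ≤ Real.exp (-(1 / (n:ℝ))) := by
      have := Real.add_one_le_exp (-(1 / (n:ℝ)))
      linarith
    have h0 : 0 ≤ 1 - 1 / (n:ℝ) := by
      rw [sub_nonneg, div_le_one hn0]; linarith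
    have h2 : (1 - 1 / (n:ℝ)) ^ ⌈s⌉₊ ≤ Real.exp (-((⌈s⌉₊:ℝ) / n)) := by
      calc (1 - 1 / (n:ℝ)) ^ ⌈s⌉₊ ≤ Real.exp (-(1 / (n:ℝ))) ^ ⌈s⌉₊ := pow_le_pow_left₀ h0 h1 _
        _ = Real.exp (-((⌈s⌉₊:ℝ) / n)) := by
            rw [← Real.exp_nat_mul]; congr 1; ring
    have h3 : Real.exp (-((⌈s⌉₊:ℝ) / n)) ≤ Real.exp (-((k + 3) * Real.log n + Real.log 36)) := by
      apply Real.exp_le_exp.2
      apply neg_le_neg
      rw [le_div_iff₀ hn0]
      calc _ = s := by rw [hs]; ring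
        _ ≤ _ := Nat.le_ceil s
    have h4 : 36 * (n:ℝ) ^ (k + 3) = Real.exp ((k + 3) * Real.log n + Real.log 36) := by
      rw [Real.exp_add, Real.exp_log (by norm_num : (0:ℝ) < 36)]
      have : ((k:ℝ) + 3) * Real.log n = ((k + 3 : ℕ):ℝ) * Real.log n := by push_cast; ring
      rw [this, Real.exp_nat_mul, Real.exp_log hn0]; ring
    calc (1 - 1 / (n:ℝ)) ^ ⌈s⌉₊ * (36 * (n:ℝ) ^ (k + 3))
        ≤ Real.exp (-((k + 3) * Real.log n + Real.log 36)) * (36 * (n:ℝ) ^ (k + 3)) :=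
          mul_le_mul_of_nonneg_right (h2.trans h3) (by positivity)
      _ = 1 := by rw [h4, ← Real.exp_add]; simp
  · have h1 : (⌈s⌉₊:ℝ) < s + 1 := Nat.ceil_lt_add_one hs0
    have h2 : s ≤ (k + 3) * (n * Real.log n) + 4 * (n * Real.log n) := by
      rw [hs]
      have : (n:ℝ) * Real.log 36 ≤ 4 * (n * Real.log n) := by
        calc (n:ℝ) * Real.log 36 ≤ n * 4 := mul_le_mul_of_nonneg_left hlog36 hn0.le
          _ = 4 * (n * 1) := by ring
          _ ≤ 4 * (n * Real.log n) := by gcongr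
      linarith
    have h3 : (1:ℝ) ≤ n * Real.log n := by nlinarith
    nlinarith

/-- Quantitative one-level recursion. -/
theorem quant (k : ℕ) (K0 : ℝ) (D0 : ℕ) (hK0 : 0 ≤ K0)
    (IH : ∀ n : ℕ, 2 ≤ n → ∃ ℓ : ℕ, Has k (Fin n) ℓ ∧ (ℓ:ℝ) ≤ K0 * (n * Real.log n ^ D0)) :
    ∃ C : ℝ, 0 < C ∧ ∀ n : ℕ, (k + 4) ^ 2 ≤ n → ∀ Tm : ℕ, Has (k + 1) (Fin (Nat.sqrt n)) Tm →
      ∃ ℓ : ℕ, Has (k + 1) (Fin n) ℓ ∧
        (ℓ:ℝ) ≤ C * ((Nat.sqrt n : ℝ) * Tm) + C * (n * Real.log n ^ (D0 + 1)) := by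
  set c1 : ℝ := 2 ^ ((k + 1) * (k + 1)) with hc1
  set c2 : ℝ := 2 ^ (2 ^ (k + 1)) with hc2
  set c1' : ℝ := 2 ^ (2 ^ ((k + 1) * (k + 1))) with hc1'
  set h : ℝ := 2 * K0 + 2 * (k + 8) + 1 with hh
  have hh0 : 0 ≤ h := by positivity
  have hc20 : 0 < c2 := by positivity
  have hc10 : 0 < c1' := by positivity
  refine ⟨K0 + c2 * (2 * (K0 + c1' * h) + h) + 4 * c1' * c2, by positivity, ?_⟩
  intro n hn Tm hTm
  set m := Nat.sqrt n with hm
  have hmn : m * m ≤ n := Nat.sqrt_le n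
  have hm4 : k + 4 ≤ m := by
    rw [hm, Nat.le_sqrt]
    calc (k + 4) * (k + 4) = (k + 4) ^ 2 := by ring
      _ ≤ n := hn
  have hnm : n < (m + 1) * (m + 1) := Nat.lt_succ_sqrt n
  have hcover : n ≤ 2 * (m * m) := by nlinarith
  have hmm : (k + 4) * (k + 4) ≤ m * m := Nat.mul_le_mul hm4 hm4
  have hkk : k + 1 + 2 ≤ (k + 4) * (k + 4) := by nlinarith
  have hn16 : 16 ≤ n := by nlinarith
  have hnR : (3:ℝ) ≤ (n:ℝ) := by exact_mod_cast (by omega : 3 ≤ n)
  have hlog : 1 ≤ Real.log n := by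
    rw [Real.le_log_iff_exp_le (by linarith)]
    have := Real.exp_one_lt_d9
    linarith
  set L := Real.log n with hL
  set Q : ℝ := n * L ^ (D0 + 1) with hQ
  have hLp : L ^ D0 ≤ L ^ (D0 + 1) := pow_le_pow_right₀ hlog (Nat.le_succ _)
  have hQA : (n:ℝ) * L ^ D0 ≤ Q := mul_le_mul_of_nonneg_left hLp (by linarith)
  have hQL : (n:ℝ) * L ≤ Q := by
    apply mul_le_mul_of_nonneg_left _ (by linarith)
    calc L = L ^ 1 := (pow_one L).symm
      _ ≤ L ^ (D0 + 1) := pow_le_pow_right₀ hlog (by omega)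
  have hQ1 : 1 ≤ Q := by
    have : (1:ℝ) ≤ L ^ (D0 + 1) := one_le_pow₀ hlog
    nlinarith
  -- monotone form of IH
  have IH' : ∀ n' : ℕ, 2 ≤ n' → n' ≤ n → ∃ ℓ : ℕ, Has k (Fin n') ℓ ∧ (ℓ:ℝ) ≤ K0 * Q := by
    intro n' h2 hle
    obtain ⟨ℓ, h1, h3⟩ := IH n' h2
    refine ⟨ℓ, h1, h3.trans ?_⟩
    apply mul_le_mul_of_nonneg_left _ hK0
    refine le_trans ?_ hQA
    have hn'R : (2:ℝ) ≤ (n':ℝ) := by exact_mod_cast h2
    have hlR : (n':ℝ) ≤ n := by exact_mod_cast hle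
    have h4 : 0 ≤ Real.log n' := Real.log_nonneg (by linarith)
    have h5 : Real.log n' ≤ L := Real.log_le_log (by linarith) hlR
    exact mul_le_mul hlR (pow_le_pow_left₀ h4 h5 _) (pow_nonneg h4 _) (by linarith)
  have T' : ∀ n' : ℕ, 3 ≤ n' → n' ≤ n → ∃ t : ℕ,
      (1 - 1 / (n':ℝ)) ^ t * (36 * (n':ℝ) ^ (k + 3)) ≤ 1 ∧ (t:ℝ) ≤ (k + 8) * Q := by
    intro n' h3 hle
    obtain ⟨t, h1, h2⟩ := exists_t k n' h3
    refine ⟨t, h1, h2.trans ?_⟩
    apply mul_le_mul_of_nonneg_left _ (by positivity)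
    refine le_trans ?_ hQL
    have hn'R : (3:ℝ) ≤ (n':ℝ) := by exact_mod_cast h3
    have hlR : (n':ℝ) ≤ n := by exact_mod_cast hle
    have h4 : 0 ≤ Real.log n' := Real.log_nonneg (by linarith)
    have h5 : Real.log n' ≤ L := Real.log_le_log (by linarith) hlR
    exact mul_le_mul hlR h5 h4 (by linarith)
  -- the grid
  obtain ⟨w, hwv, hwu, hwl⟩ := hTm
  obtain ⟨X, hXv, hXl, hXr⟩ := grid_rank m (k + 1) (by omega) hwv hwu
  obtain ⟨a1, ha1, ha1'⟩ := IH' (m * m) (by omega) hmn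
  obtain ⟨a2, ha2, ha2'⟩ := IH' (m * m - (k + 1)) (by omega) (by omega)
  obtain ⟨t1, ht1, ht1'⟩ := T' (m * m) (by omega) hmn
  have : Nonempty (Fin m × Fin m) := ⟨(⟨0, by omega⟩, ⟨0, by omega⟩)⟩
  have hcardm : Fintype.card (Fin m × Fin m) = m * m := by simp
  have hgrid := has_succ (α := Fin m × Fin m) (k := k) (by rw [hcardm]; omega) a1 a2 t1
    (ha1.transport (Fintype.equivOfCardEq (by simp))) (by rw [hcardm]; exact ha2)
    (by rw [hcardm]; exact ht1) _ X hXv hXr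
  have hgrid' : Has (k + 1) (Fin (m * m))
      (a1 + 2 ^ 2 ^ ((k + 1) * (k + 1)) * (X.length + (2 * (a2 + t1) + 1))) :=
    hgrid.transport (Fintype.equivOfCardEq (by simp))
  obtain ⟨w2, hw2v, hw2u, hw2l⟩ := hgrid'
  have : Nonempty (Fin (m * m)) := ⟨⟨0, by nlinarith⟩⟩
  let e1 : Fin (m * m) ↪ Fin n := Fin.castLEEmb hmn
  let e2 : Fin (m * m) ↪ Fin n :=
    ⟨fun i => ⟨i.1 + (n - m * m), by have := i.2; omega⟩, fun i j hij => by
      apply Fin.ext
      have := congrArg Fin.val hij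
      simp only at this
      omega⟩
  obtain ⟨X2, hX2v, hX2l, hX2r⟩ := cover_rank (k + 1) hw2v hw2u e1 e2 (by
    intro a
    by_cases ha : a.1 < m * m
    · left; exact ⟨⟨a.1, ha⟩, by apply Fin.ext; rfl⟩
    · right
      refine ⟨⟨a.1 - (n - m * m), by have := a.2; omega⟩, ?_⟩
      apply Fin.ext
      show a.1 - (n - m * m) + (n - m * m) = a.1
      omega)
  obtain ⟨b1, hb1, hb1'⟩ := IH' n (by omega) le_rfl
  obtain ⟨b2, hb2, hb2'⟩ := IH' (n - (k + 1)) (by omega) (by omega)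
  obtain ⟨t2, ht2, ht2'⟩ := T' n (by omega) le_rfl
  have : Nonempty (Fin n) := ⟨⟨0, by omega⟩⟩
  have hfin := has_succ (α := Fin n) (k := k) (by rw [Fintype.card_fin]; omega) b1 b2 t2
    hb1 (by rw [Fintype.card_fin]; exact hb2) (by rw [Fintype.card_fin]; exact ht2) _ X2 hX2v hX2r
  refine ⟨_, hfin, ?_⟩
  have hXlR : (X.length:ℝ) ≤ 2 * ((m:ℝ) * Tm) := by
    rw [hXl]; push_cast
    have h0 : (w.length:ℝ) ≤ Tm := by exact_mod_cast hwl
    have hm0 : (0:ℝ) ≤ m := by positivity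
    have h1 := mul_le_mul_of_nonneg_left h0 hm0
    linarith
  set M : ℝ := (m:ℝ) * Tm with hM
  have hM0 : 0 ≤ M := by positivity
  have hexp : h * Q = 2 * (K0 * Q) + 2 * ((k + 8) * Q) + Q := by rw [hh]; ring
  have hS : (w2.length:ℝ) ≤ (K0 + c1' * h) * Q + 2 * c1' * M := by
    have h1 : (w2.length:ℝ) ≤ (a1:ℝ) + c1' * (X.length + (2 * (a2 + t1) + 1)) := by
      have := hw2l
      rw [hc1']
      exact_mod_cast this
    refine h1.trans ?_
    have h2 : (X.length:ℝ) + (2 * (a2 + t1) + 1) ≤ 2 * M + h * Q := by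
      rw [hexp]; linarith
    calc (a1:ℝ) + c1' * (X.length + (2 * (a2 + t1) + 1)) ≤ K0 * Q + c1' * (2 * M + h * Q) :=
          add_le_add ha1' (mul_le_mul_of_nonneg_left h2 hc10.le)
      _ = _ := by ring
  have hX2lR : (X2.length:ℝ) = 2 * w2.length := by rw [hX2l]; push_cast; ring
  push_cast
  rw [hX2lR, ← hc2]
  have h3 : 2 * (w2.length:ℝ) + (2 * ((b2:ℝ) + t2) + 1)
      ≤ 2 * ((K0 + c1' * h) * Q + 2 * c1' * M) + h * Q := by
    rw [hexp]; linarith
  have h4 := mul_le_mul_of_nonneg_left h3 hc20.le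
  have hQ0 : 0 ≤ Q := by linarith
  have e1' : 0 ≤ K0 * M := by positivity
  have e2' : 0 ≤ c2 * (2 * (K0 + c1' * h) + h) * M := by positivity
  have e3' : 0 ≤ 4 * c1' * c2 * Q := by positivity
  calc (b1:ℝ) + c2 * (2 * (w2.length:ℝ) + (2 * ((b2:ℝ) + t2) + 1))
      ≤ K0 * Q + c2 * (2 * ((K0 + c1' * h) * Q + 2 * c1' * M) + h * Q) := add_le_add hb1' h4
    _ ≤ _ := by
      have : (K0 + c2 * (2 * (K0 + c1' * h) + h) + 4 * c1' * c2) * M
          + (K0 + c2 * (2 * (K0 + c1' * h) + h) + 4 * c1' * c2) * Q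
          = (K0 * Q + c2 * (2 * ((K0 + c1' * h) * Q + 2 * c1' * M) + h * Q))
            + (K0 * M + c2 * (2 * (K0 + c1' * h) + h) * M + 4 * c1' * c2 * Q) := by ring
      rw [this]
      linarith

/-- The polylogarithmic bound. -/
theorem main_bound (k : ℕ) : ∃ (K : ℝ) (D : ℕ), 0 ≤ K ∧
    ∀ n : ℕ, 2 ≤ n → ∃ ℓ : ℕ, Has k (Fin n) ℓ ∧ (ℓ:ℝ) ≤ K * (n * Real.log n ^ D) := by
  induction k with
  | zero =>
    refine ⟨0, 0, le_rfl, fun n _ => ⟨0, has_zero n, by simp⟩⟩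
  | succ k ih =>
    obtain ⟨K0, D0, hK0, IH⟩ := ih
    obtain ⟨C, hC, hrec⟩ := quant k K0 D0 hK0 IH
    obtain ⟨E, hE⟩ := pow_unbounded_of_one_lt (2 * C) (one_lt_two (α := ℝ))
    set D := D0 + 1 + E with hD
    choose T hT using fun n => has_exists (k + 1) n
    have hpos : ∀ n : ℕ, 2 ≤ n → 0 < (n:ℝ) * Real.log n ^ D := by
      intro n hn
      have hnR : (2:ℝ) ≤ (n:ℝ) := by exact_mod_cast hn
      have : 0 < Real.log n := Real.log_pos (by linarith)
      positivity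
    set K : ℝ := 2 * C + ∑ n ∈ (Finset.range ((k + 4) ^ 2)).filter (fun n => 2 ≤ n),
      (T n : ℝ) / ((n:ℝ) * Real.log n ^ D) with hKdef
    have hsum0 : 0 ≤ ∑ n ∈ (Finset.range ((k + 4) ^ 2)).filter (fun n => 2 ≤ n),
        (T n : ℝ) / ((n:ℝ) * Real.log n ^ D) := by
      apply Finset.sum_nonneg
      intro n hn
      rw [Finset.mem_filter] at hn
      exact div_nonneg (by positivity) (hpos n hn.2).le
    have hK2C : 2 * C ≤ K := by rw [hKdef]; linarith
    have hK0' : 0 < K := by linarith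
    refine ⟨K, D, hK0'.le, ?_⟩
    intro n
    induction n using Nat.strong_induction_on with
    | _ n ihn =>
      intro hn2
      by_cases hsmall : n < (k + 4) ^ 2
      · refine ⟨T n, hT n, ?_⟩
        have h1 : (T n : ℝ) / ((n:ℝ) * Real.log n ^ D) ≤ K := by
          have := Finset.single_le_sum (f := fun n : ℕ => (T n : ℝ) / ((n:ℝ) * Real.log n ^ D))
            (s := (Finset.range ((k + 4) ^ 2)).filter (fun n => 2 ≤ n)) (fun i hi => by
              rw [Finset.mem_filter] at hi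
              exact div_nonneg (by positivity) (hpos i hi.2).le)
            (a := n) (by rw [Finset.mem_filter, Finset.mem_range]; exact ⟨hsmall, hn2⟩)
          rw [hKdef]
          linarith
        rwa [div_le_iff₀ (hpos n hn2)] at h1
      · push Not at hsmall
        set m := Nat.sqrt n with hm
        have hmn : m * m ≤ n := Nat.sqrt_le n
        have hm4 : k + 4 ≤ m := by
          rw [hm, Nat.le_sqrt]
          calc (k + 4) * (k + 4) = (k + 4) ^ 2 := by ring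
            _ ≤ n := hsmall
        have hmlt : m < n := by nlinarith
        obtain ⟨Tm, hTm, hTm'⟩ := ihn m hmlt (by omega)
        obtain ⟨ℓ, hℓ, hℓ'⟩ := hrec n hsmall Tm hTm
        refine ⟨ℓ, hℓ, hℓ'.trans ?_⟩
        have hn16 : 16 ≤ n := by nlinarith
        have hnR : (16:ℝ) ≤ (n:ℝ) := by exact_mod_cast hn16
        have hmR : (4:ℝ) ≤ (m:ℝ) := by exact_mod_cast (by omega : 4 ≤ m)
        have hmnR : (m:ℝ) * m ≤ n := by exact_mod_cast hmn
        have hlog : 1 ≤ Real.log n := by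
          rw [Real.le_log_iff_exp_le (by linarith)]
          have := Real.exp_one_lt_d9
          linarith
        have hlogm0 : 0 ≤ Real.log m := Real.log_nonneg (by linarith)
        have hlogm : Real.log m ≤ Real.log n / 2 := by
          have h1 : Real.log ((m:ℝ) * m) ≤ Real.log n :=
            Real.log_le_log (by positivity) hmnR
          rw [Real.log_mul (by positivity) (by positivity)] at h1
          linarith
        rw [← hm]
        have h1 : (m:ℝ) * Tm ≤ K * (n * (Real.log n ^ D / 2 ^ D)) := by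
          calc (m:ℝ) * Tm ≤ m * (K * (m * Real.log m ^ D)) :=
                mul_le_mul_of_nonneg_left hTm' (by positivity)
            _ = K * (((m:ℝ) * m) * Real.log m ^ D) := by ring
            _ ≤ K * (n * (Real.log n ^ D / 2 ^ D)) := by
                apply mul_le_mul_of_nonneg_left _ hK0'.le
                apply mul_le_mul hmnR _ (pow_nonneg hlogm0 _) (by positivity)
                rw [← div_pow]
                exact pow_le_pow_left₀ hlogm0 hlogm _
        have hDE : (2:ℝ) ^ E ≤ 2 ^ D := pow_le_pow_right₀ one_le_two (by omega)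
        have h2C : 2 * C ≤ 2 ^ D := hE.le.trans hDE
        have hX0 : 0 ≤ (n:ℝ) * Real.log n ^ D := (hpos n hn2).le
        have h2 : C * ((m:ℝ) * Tm) ≤ K / 2 * (n * Real.log n ^ D) := by
          calc C * ((m:ℝ) * Tm) ≤ C * (K * (n * (Real.log n ^ D / 2 ^ D))) :=
                mul_le_mul_of_nonneg_left h1 hC.le
            _ = (2 * C / 2 ^ D) * (K / 2 * (n * Real.log n ^ D)) := by ring
            _ ≤ 1 * (K / 2 * (n * Real.log n ^ D)) := by
                apply mul_le_mul_of_nonneg_right _ (by positivity)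
                rw [div_le_one (by positivity)]; exact h2C
            _ = _ := one_mul _
        have h3 : C * (n * Real.log n ^ (D0 + 1)) ≤ K / 2 * (n * Real.log n ^ D) := by
          have h4 : Real.log n ^ (D0 + 1) ≤ Real.log n ^ D := pow_le_pow_right₀ hlog (by omega)
          have h5 : (n:ℝ) * Real.log n ^ (D0 + 1) ≤ n * Real.log n ^ D :=
            mul_le_mul_of_nonneg_left h4 (by positivity)
          calc C * (n * Real.log n ^ (D0 + 1)) ≤ C * (n * Real.log n ^ D) :=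
                mul_le_mul_of_nonneg_left h5 hC.le
            _ ≤ K / 2 * (n * Real.log n ^ D) :=
                mul_le_mul_of_nonneg_right (by linarith) hX0
        calc _ ≤ K / 2 * (n * Real.log n ^ D) + K / 2 * (n * Real.log n ^ D) := add_le_add h2 h3
          _ = _ := by ring

end Pool.Agent.Helper97K9.Shuffle
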