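import Pool.Agent.Helper97K9.Shuffle.Level

set_option linter.unusedSectionVars false
set_option linter.unusedVariables false

namespace Pool.Agent.Helper97K9.Shuffle

open Finset Equiv

variable {α : Type*} [Fintype α] [DecidableEq α]

theorem sum_split {k : ℕ} {x : Fin k → α} (hx : Function.Injective x) (g : α → ℝ) :
    ∑ a, g a = ∑ i, g (x i) + ∑ a ∈ (univ.image x)ᶜ, g a := by
  rw [← Finset.sum_add_sum_compl (univ.image x) g, Finset.sum_image (fun i _ j _ h => hx h)]

theorem card_compl_image {k : ℕ} {x : Fin k → α} (hx : Function.Injective x) :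
    (((univ.image x)ᶜ).card : ℝ) = (Fintype.card α : ℝ) - k := by
  rw [Finset.card_compl, Finset.card_image_of_injective _ hx, Finset.card_univ, Fintype.card_fin,
    Nat.cast_sub]
  simpa using Fintype.card_le_of_injective x hx

theorem not_inj_update {k : ℕ} (x : Fin k → α) {i j : Fin k} (h : j ≠ i) :
    ¬ Function.Injective (Function.update x i (x j)) := by
  intro hinj
  apply h
  apply hinj
  rw [Function.update_of_ne h, Function.update_self]

theorem sum_update_compl {k : ℕ} {F : Fn k α} (hF : F ∈ V k α) {x : Fin k → α}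
    (hx : Function.Injective x) (i : Fin k) :
    ∑ b ∈ (univ.image x)ᶜ, F (Function.update x i b) = - F x := by
  have h := congrFun (hF.2 i) x
  rw [marg_apply, Pi.zero_apply, sum_split hx] at h
  have h2 : ∑ j, F (Function.update x i (x j)) = F x := by
    rw [Finset.sum_eq_single i]
    · rw [Function.update_eq_self]
    · intro j _ hj
      exact hF.1 _ (not_inj_update x hj)
    · intro h; exact absurd (mem_univ _) h
  rw [h2] at h
  linarith

theorem swap_comp_update {k : ℕ} {x : Fin k → α} (hx : Function.Injective x) (i : Fin k) {b : α}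
    (hb : b ∈ (univ.image x)ᶜ) : (fun l => swap (x i) b (x l)) = Function.update x i b := by
  funext l
  by_cases h : l = i
  · subst h; simp
  · rw [Function.update_of_ne h, swap_apply_of_ne_of_ne]
    · exact fun h' => h (hx h')
    · intro h'
      rw [mem_compl] at hb
      exact hb (mem_image.2 ⟨l, mem_univ _, h'⟩)

theorem swap_comp_of_notMem {k : ℕ} {x : Fin k → α} {a b : α}
    (ha : a ∈ (univ.image x)ᶜ) (hb : b ∈ (univ.image x)ᶜ) : (fun l => swap a b (x l)) = x := by
  funext l
  rw [mem_compl] at ha hb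
  rw [swap_apply_of_ne_of_ne]
  · intro h'; exact ha (mem_image.2 ⟨l, mem_univ _, h'⟩)
  · intro h'; exact hb (mem_image.2 ⟨l, mem_univ _, h'⟩)

theorem swap_comp_inj {k : ℕ} {x : Fin k → α} (hx : Function.Injective x) (i j : Fin k) :
    (fun l => swap (x i) (x j) (x l)) = (fun l => x (swap i j l)) := by
  funext l
  rw [hx.swap_apply]

/-- The sum over all (ordered) transpositions acting on `V k α`. -/
theorem sum_swap {k : ℕ} {F : Fn k α} (hF : F ∈ V k α) {x : Fin k → α}
    (hx : Function.Injective x) :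
    ∑ a, ∑ b, F (fun l => swap a b (x l))
      = (((Fintype.card α : ℝ) - k) ^ 2 - 2 * k) * F x + ∑ i, ∑ j, F (fun l => x (swap i j l)) := by
  rw [sum_split hx]
  have h1 : ∀ i, ∑ b, F (fun l => swap (x i) b (x l))
      = ∑ j, F (fun l => x (swap i j l)) - F x := by
    intro i
    rw [sum_split hx]
    have : ∑ b ∈ (univ.image x)ᶜ, F (fun l => swap (x i) b (x l)) = - F x := by
      rw [← sum_update_compl hF hx i]
      exact Finset.sum_congr rfl (fun b hb => by rw [swap_comp_update hx i hb])
    rw [this]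
    simp only [swap_comp_inj hx]
    ring
  have h2 : ∀ a ∈ (univ.image x)ᶜ, ∑ b, F (fun l => swap a b (x l))
      = ∑ j, F (Function.update x j a) + ((Fintype.card α : ℝ) - k) * F x := by
    intro a ha
    rw [sum_split hx]
    congr 1
    · apply Finset.sum_congr rfl
      intro j _
      rw [← swap_comp_update hx j ha]
      simp only [swap_comm a]
    · rw [Finset.sum_congr rfl (fun b hb => by rw [swap_comp_of_notMem ha hb]), Finset.sum_const,
        nsmul_eq_mul, card_compl_image hx]
  rw [Finset.sum_congr rfl (fun i _ => h1 i), Finset.sum_congr rfl h2, Finset.sum_add_distrib,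
    Finset.sum_comm, Finset.sum_congr rfl (fun i _ => sum_update_compl hF hx i)]
  rw [Finset.sum_sub_distrib, Finset.sum_const, Finset.sum_const, Finset.sum_const,
    Finset.card_univ, Fintype.card_fin, nsmul_eq_mul, nsmul_eq_mul, nsmul_eq_mul,
    card_compl_image hx]
  ring

/-- same identity as an identity of functions -/
theorem sum_swap_fun {k : ℕ} {F : Fn k α} (hF : F ∈ V k α) :
    ∑ a, ∑ b, act k (swap a b) F
      = (((Fintype.card α : ℝ) - k) ^ 2 - 2 * k) • F + ∑ i, ∑ j, pull (swap i j : Perm (Fin k)) F := by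
  funext x
  simp only [Finset.sum_apply, Pi.add_apply, Pi.smul_apply, act_apply, pull_apply, smul_eq_mul]
  by_cases hx : Function.Injective x
  · exact sum_swap hF hx
  · have h1 : ∀ a b : α, F (fun l => swap a b (x l)) = 0 := fun a b =>
      (V_act hF (swap a b)).1 x hx
    have h2 : ∀ i j, F (fun l => x (swap i j l)) = 0 := fun i j =>
      (V_pull hF (swap i j)).1 x hx
    simp only [h1, h2, hF.1 x hx, Finset.sum_const_zero, mul_zero, add_zero]

theorem ip_pull {k : ℕ} (π : Perm (Fin k)) (F G : Fn k α) :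
    ip (pull π F) (pull π G) = ip F G := by
  unfold ip
  exact Fintype.sum_equiv (Equiv.arrowCongr π.symm (Equiv.refl _)) _ _ (fun x => rfl)

theorem ip_le_half {k : ℕ} (F G : Fn k α) : ip F G ≤ (ip F F + ip G G) / 2 := by
  have h := ip_self_nonneg (F - G)
  have h2 : ip (F - G) (F - G) = ip F F - 2 * ip F G + ip G G := by
    rw [sub_eq_add_neg, ← neg_one_smul ℝ G]
    simp only [ip_add_left, ip_add_right, ip_smul_left, ip_smul_right]
    rw [ip_comm G F]; ring
  linarith

/-- One greedy step. -/
theorem greedy_step {k : ℕ} (hk : 1 ≤ k) [Nonempty α] {F : Fn k α} (hF : F ∈ V k α) :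
    ∃ a b : α, ip (gateOp k ⟨a, b, 1 / 2⟩ F) (gateOp k ⟨a, b, 1 / 2⟩ F)
      ≤ (1 - 1 / (Fintype.card α : ℝ)) * ip F F := by
  set N : ℝ := (Fintype.card α : ℝ) with hN
  have hN1 : 1 ≤ N := by rw [hN]; exact_mod_cast Fintype.card_pos
  by_cases hkN : (k : ℝ) ≤ N
  swap
  · -- F = 0
    have : F = 0 := by
      funext x
      apply hF.1
      intro hinj
      apply hkN
      have := Fintype.card_le_of_injective x hinj
      rw [Fintype.card_fin] at this
      rw [hN]; exact_mod_cast this
    subst this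
    obtain ⟨a⟩ := ‹Nonempty α›
    exact ⟨a, a, by simp [ip_zero_left]⟩
  -- average
  have hsum : ∑ p : α × α, ip F (act k (swap p.1 p.2) F) ≤ ((N - k) ^ 2 - 2 * k + k ^ 2) * ip F F := by
    have h1 : ∑ p : α × α, ip F (act k (swap p.1 p.2) F)
        = ip F (∑ a, ∑ b, act k (swap a b) F) := by
      rw [Fintype.sum_prod_type]
      unfold ip
      simp only [Finset.sum_apply, Finset.mul_sum]
      rw [Finset.sum_congr rfl (fun a _ => Finset.sum_comm), Finset.sum_comm]
    rw [h1, sum_swap_fun hF, ip_add_right, ip_smul_right]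
    have h2 : ip F (∑ i, ∑ j, pull (swap i j : Perm (Fin k)) F)
        = ∑ i : Fin k, ∑ j : Fin k, ip F (pull (swap i j : Perm (Fin k)) F) := by
      unfold ip
      simp only [Finset.sum_apply, Finset.mul_sum]
      rw [Finset.sum_comm]
      apply Finset.sum_congr rfl
      intro i _
      rw [Finset.sum_comm]
    rw [h2]
    have h3 : ∑ i : Fin k, ∑ j : Fin k, ip F (pull (swap i j : Perm (Fin k)) F)
        ≤ ∑ _i : Fin k, ∑ _j : Fin k, ip F F := by
      apply Finset.sum_le_sum
      intro i _
      apply Finset.sum_le_sum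
      intro j _
      have := ip_le_half F (pull (swap i j : Perm (Fin k)) F)
      rw [ip_pull] at this
      linarith
    simp only [Finset.sum_const, Finset.card_univ, Fintype.card_fin, nsmul_eq_mul] at h3
    nlinarith [h3]
  have hpos : (0:ℝ) ≤ ip F F := ip_self_nonneg F
  have hk1 : (1:ℝ) ≤ k := by exact_mod_cast hk
  have hbound : ((N - k) ^ 2 - 2 * k + k ^ 2) * ip F F ≤ ∑ _p : α × α, (1 - 2 / N) * ip F F := by
    rw [Finset.sum_const, Finset.card_univ, Fintype.card_prod, nsmul_eq_mul]
    push_cast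
    rw [← hN]
    have : N * N * ((1 - 2 / N) * ip F F) = (N ^ 2 - 2 * N) * ip F F := by
      field_simp
    rw [this]
    apply mul_le_mul_of_nonneg_right _ hpos
    nlinarith [mul_nonneg (sub_nonneg.2 hk1) (sub_nonneg.2 hkN)]
  obtain ⟨⟨a, b⟩, -, hab⟩ := Finset.exists_le_of_sum_le (s := (univ : Finset (α × α)))
    (Finset.univ_nonempty) (hsum.trans hbound)
  refine ⟨a, b, ?_⟩
  have hexp : ip (gateOp k ⟨a, b, 1 / 2⟩ F) (gateOp k ⟨a, b, 1 / 2⟩ F)
      = (ip F F + ip F (act k (swap a b) F)) / 2 := by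
    unfold gateOp
    simp only [LinearMap.add_apply, LinearMap.smul_apply, LinearMap.id_apply, ip_add_left,
      ip_add_right, ip_smul_left, ip_smul_right, ip_act]
    rw [ip_comm (act k (swap a b) F) F]
    ring
  rw [hexp]
  simp only at hab
  have h4 : (1 - 1 / N) = (1 + (1 - 2 / N)) / 2 := by ring
  rw [h4]
  nlinarith [hab]

/-- Greedy: a word with exponentially small output. -/
theorem greedy {k : ℕ} (hk : 1 ≤ k) [Nonempty α] (t : ℕ) {F : Fn k α} (hF : F ∈ V k α) :
    ∃ w : List (Gate α), Valid w ∧ w.length = t ∧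
      ip (opL k w F) (opL k w F) ≤ (1 - 1 / (Fintype.card α : ℝ)) ^ t * ip F F := by
  have hN1 : (1:ℝ) ≤ (Fintype.card α : ℝ) := by exact_mod_cast Fintype.card_pos
  have hnn : (0:ℝ) ≤ 1 - 1 / (Fintype.card α : ℝ) := by
    rw [sub_nonneg, div_le_one (by linarith)]; exact hN1
  induction t generalizing F with
  | zero => exact ⟨[], Valid.nil, rfl, by simp⟩
  | succ t ih =>
    obtain ⟨a, b, hab⟩ := greedy_step hk hF
    obtain ⟨w, hv, hl, hw⟩ := ih (V_gateOp hF ⟨a, b, 1 / 2⟩)
    refine ⟨⟨a, b, 1 / 2⟩ :: w, ?_, by simp [hl], ?_⟩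
    · intro g hg
      rcases List.mem_cons.1 hg with h | h
      · rw [h]; constructor <;> norm_num
      · exact hv g h
    · rw [opL_cons]
      calc _ ≤ _ := hw
        _ ≤ (1 - 1 / (Fintype.card α : ℝ)) ^ t * ((1 - 1 / (Fintype.card α : ℝ)) * ip F F) :=
            mul_le_mul_of_nonneg_left hab (pow_nonneg hnn _)
        _ = _ := by rw [pow_succ]; ring

end Pool.Agent.Helper97K9.Shuffle
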