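import Pool.Agent.Helper97K9.Shuffle.Rank

set_option linter.unusedSectionVars false
set_option linter.unusedVariables false

namespace Pool.Agent.Helper97K9.Shuffle

open Finset Equiv Module

variable {α : Type*} [Fintype α] [DecidableEq α]

theorem finrank_le_of_type {k : ℕ} (W : Submodule ℝ (Fn k α)) {Θ : Type*} [Fintype Θ]
    (ty : (Fin k → α) → Θ) (h0 : ∀ F ∈ W, ∀ x, ¬ Function.Injective x → F x = 0)
    (h : ∀ F ∈ W, ∀ x y, Function.Injective x → Function.Injective y → ty x = ty y → F x = F y) :
    finrank ℝ W ≤ Fintype.card Θ := by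
  classical
  let L : W →ₗ[ℝ] (Θ → ℝ) :=
    { toFun := fun F θ => if h : ∃ x, Function.Injective x ∧ ty x = θ then F.1 h.choose else 0
      map_add' := by
        intro F G
        funext θ
        by_cases h : ∃ x, Function.Injective x ∧ ty x = θ
        · simp [h]
        · simp [h]
      map_smul' := by
        intro c F
        funext θ
        by_cases h : ∃ x, Function.Injective x ∧ ty x = θ
        · simp [h]
        · simp [h] }
  have hinj : Function.Injective L := by
    rw [← LinearMap.ker_eq_bot, LinearMap.ker_eq_bot']
    intro F hF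
    apply Subtype.ext
    funext x
    by_cases hx : Function.Injective x
    swap
    · exact h0 F.1 F.2 x hx
    have h1 : ∃ z, Function.Injective z ∧ ty z = ty x := ⟨x, hx, rfl⟩
    have h2 := congrFun hF (ty x)
    have h3 : L F (ty x) = F.1 h1.choose := dif_pos h1
    rw [h3] at h2
    have h4 := h F.1 F.2 x h1.choose hx h1.choose_spec.1 h1.choose_spec.2.symm
    rw [h4, h2]; rfl
  have := LinearMap.finrank_le_finrank_of_injective hinj
  rwa [Module.finrank_fintype_fun_eq_card] at this

theorem conn {C : Type*} (cls : α → C) {k : ℕ} {F : Fn k α}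
    (hF : ∀ a b, cls a = cls b → act k (swap a b) F = F) {x y : Fin k → α}
    (hx : Function.Injective x) (hy : Function.Injective y) (h : ∀ i, cls (x i) = cls (y i)) :
    F x = F y := by
  have main : ∀ (d : ℕ) (x : Fin k → α), Function.Injective x → (∀ i, cls (x i) = cls (y i)) →
      (univ.filter (fun i => x i ≠ y i)).card = d → F x = F y := by
    intro d
    induction d using Nat.strong_induction_on with
    | _ d ih =>
      intro x hx h hd
      by_cases hall : ∀ i, x i = y i
      · congr 1; funext i; exact hall i
      push Not at hall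
      obtain ⟨i, hi⟩ := hall
      set x' : Fin k → α := fun j => swap (x i) (y i) (x j) with hx'
      have hx'inj : Function.Injective x' := (swap (x i) (y i)).injective.comp hx
      have hF' : F x' = F x := congrFun (hF (x i) (y i) (h i)) x
      rw [← hF']
      refine ih _ ?_ x' hx'inj ?_ rfl
      · rw [← hd]
        apply Finset.card_lt_card
        rw [Finset.ssubset_iff_of_subset]
        · refine ⟨i, by simp [hi], by simp [hx']⟩
        · intro j hj
          simp only [mem_filter, mem_univ, true_and] at hj ⊢
          intro hxy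
          apply hj
          rw [hx']
          simp only
          by_cases hji : j = i
          · exact absurd (hji ▸ hxy) hi
          · rw [swap_apply_of_ne_of_ne, hxy]
            · exact fun h' => hji (hx h')
            · rw [hxy]; exact fun h' => hji (hy h')
      · intro j
        rw [hx']
        simp only
        by_cases h1 : x j = x i
        · rw [h1, swap_apply_left, ← hx h1]
        · by_cases h2 : x j = y i
          · rw [h2, swap_apply_right, h i, ← h j, h2]
          · rw [swap_apply_of_ne_of_ne h1 h2]; exact h j
  exact main _ x hx h rfl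

theorem exists_perm_comp {k : ℕ} {C : Type*} [DecidableEq C] (f g : Fin k → C)
    (h : ∀ i j, f i = f j ↔ g i = g j) : ∃ π : Perm C, ∀ i, π (f i) = g i := by
  have main : ∀ s : Finset (Fin k), ∃ π : Perm C, ∀ i ∈ s, π (f i) = g i := by
    intro s
    induction s using Finset.induction_on with
    | empty => exact ⟨1, by simp⟩
    | insert i s his ih =>
      obtain ⟨π, hπ⟩ := ih
      by_cases hex : ∃ j ∈ s, f j = f i
      · obtain ⟨j, hj, hji⟩ := hex
        refine ⟨π, fun l hl => ?_⟩
        rcases Finset.mem_insert.1 hl with rfl | hl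
        · rw [← hji, hπ j hj]; exact (h _ _).1 hji
        · exact hπ l hl
      · push Not at hex
        refine ⟨swap (π (f i)) (g i) * π, fun l hl => ?_⟩
        rcases Finset.mem_insert.1 hl with rfl | hl
        · simp
        · rw [Perm.mul_apply, hπ l hl, swap_apply_of_ne_of_ne]
          · rw [← hπ l hl]
            exact fun h' => hex l hl (π.injective h')
          · exact fun h' => hex l hl ((h _ _).2 h')
  obtain ⟨π, hπ⟩ := main univ
  exact ⟨π, fun i => hπ i (mem_univ i)⟩

/-! ### Block words -/

section blocks

variable {ι β : Type*} [Fintype ι] [DecidableEq ι] [Fintype β] [DecidableEq β]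

def blk (E : ι × β ≃ α) (r : ι) : β ↪ α := ⟨fun b => E (r, b), fun b b' h => by simpa using h⟩

theorem blk_apply (E : ι × β ≃ α) (r : ι) (b : β) : blk E r b = E (r, b) := rfl

def bact (E : ι × β ≃ α) (l : List ι) (g : ι → Perm β) (a : α) : α :=
  if (E.symm a).1 ∈ l then E ((E.symm a).1, g (E.symm a).1 (E.symm a).2) else a

def blockWord (E : ι × β ≃ α) (w : List (Gate β)) : List ι → List (Gate α)
  | [] => []
  | r :: l => w.map (Gate.map (blk E r)) ++ blockWord E w l

theorem sum_update (r : ι) (Ψ : (ι → Perm β) → ℝ) :
    ∑ g : ι → Perm β, ∑ σ : Perm β, Ψ (Function.update g r σ)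
      = (Fintype.card (Perm β) : ℝ) * ∑ g : ι → Perm β, Ψ g := by
  have hinv : Function.Involutive
      (fun p : (ι → Perm β) × Perm β => (Function.update p.1 r p.2, p.1 r)) := by
    intro p
    simp
  rw [← Fintype.sum_prod_type' (f := fun g σ => Ψ (Function.update g r σ))]
  have : ∑ p : (ι → Perm β) × Perm β, Ψ (Function.update p.1 r p.2)
      = ∑ p : (ι → Perm β) × Perm β, Ψ p.1 :=
    Fintype.sum_equiv hinv.toPerm _ _ (fun p => rfl)
  rw [this, Fintype.sum_prod_type]
  simp only [Finset.sum_const, Finset.card_univ, nsmul_eq_mul]
  rw [Finset.mul_sum]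

theorem opL_blockWord {k : ℕ} (E : ι × β ≃ α) {w : List (Gate β)} (hw : Unif k w) [Nonempty β]
    (l : List ι) (hl : l.Nodup) (F : Fn k α) (x : Fin k → α) :
    opL k (blockWord E w l) F x = (Fintype.card (ι → Perm β) : ℝ)⁻¹ *
      ∑ g : ι → Perm β, F (fun i => bact E l g (x i)) := by
  have hc : (Fintype.card (ι → Perm β) : ℝ) ≠ 0 := by exact_mod_cast Fintype.card_ne_zero
  have hc1 : (Fintype.card (Perm β) : ℝ) ≠ 0 := by exact_mod_cast Fintype.card_ne_zero
  induction l generalizing F with
  | nil =>
    simp only [blockWord, opL_nil, bact, List.not_mem_nil, if_false, Finset.sum_const,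
      Finset.card_univ, nsmul_eq_mul]
    rw [← mul_assoc, inv_mul_cancel₀ hc, one_mul]
  | cons r l ih =>
    rw [List.nodup_cons] at hl
    rw [blockWord, opL_append, ih hl.2, opL_map_eq_avgOn _ hw]
    simp only [avgOn_apply]
    rw [← Finset.mul_sum]
    have key : ∀ (g : ι → Perm β) (σ : Perm β),
        (fun i => σ.viaEmbedding (blk E r) (bact E l g (x i)))
          = fun i => bact E (r :: l) (Function.update g r σ) (x i) := by
      intro g σ
      funext i
      unfold bact
      by_cases h1 : (E.symm (x i)).1 ∈ l
      · have hne : (E.symm (x i)).1 ≠ r := fun h => hl.1 (h ▸ h1)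
        rw [if_pos h1, if_pos (List.mem_cons_of_mem _ h1), Perm.viaEmbedding_apply_of_notMem,
          Function.update_of_ne hne]
        rintro ⟨b, hb⟩
        rw [blk_apply] at hb
        have := congrArg Prod.fst (E.injective hb)
        exact hne this.symm
      · rw [if_neg h1]
        by_cases h2 : (E.symm (x i)).1 = r
        · have h3 : x i = blk E r (E.symm (x i)).2 := by
            rw [blk_apply, ← h2]; simp
          rw [if_pos (by rw [h2]; simp)]
          conv_lhs => rw [h3]
          rw [Perm.viaEmbedding_apply, blk_apply, h2, Function.update_self]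
        · rw [if_neg (by simp [h1, h2]), Perm.viaEmbedding_apply_of_notMem]
          rintro ⟨b, hb⟩
          apply h2
          rw [← hb, blk_apply]; simp
    simp only [key]
    rw [sum_update r (fun g => F (fun i => bact E (r :: l) g (x i)))]
    field_simp

theorem blockWord_length (E : ι × β ≃ α) (w : List (Gate β)) (l : List ι) :
    (blockWord E w l).length = l.length * w.length := by
  induction l with
  | nil => simp [blockWord]
  | cons r l ih => rw [blockWord, List.length_append, ih, List.length_map, List.length_cons]; ring

theorem blockWord_valid (E : ι × β ≃ α) {w : List (Gate β)} (hw : Valid w) (l : List ι) :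
    Valid (blockWord E w l) := by
  induction l with
  | nil => exact Valid.nil
  | cons r l ih => exact (hw.map _).append ih

noncomputable def fullWord (E : ι × β ≃ α) (w : List (Gate β)) : List (Gate α) :=
  blockWord E w (univ : Finset ι).toList

theorem opL_fullWord {k : ℕ} (E : ι × β ≃ α) {w : List (Gate β)} (hw : Unif k w) [Nonempty β]
    (F : Fn k α) (x : Fin k → α) :
    opL k (fullWord E w) F x = (Fintype.card (ι → Perm β) : ℝ)⁻¹ *
      ∑ g : ι → Perm β, F (fun i => E ((E.symm (x i)).1, g (E.symm (x i)).1 (E.symm (x i)).2)) := by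
  unfold fullWord
  rw [opL_blockWord E hw _ (Finset.nodup_toList _)]
  simp [bact]

theorem fullWord_inv {k : ℕ} (E : ι × β ≃ α) {w : List (Gate β)} (hw : Unif k w) [Nonempty β]
    (F : Fn k α) (r : ι) (b b' : β) :
    act k (swap (E (r, b)) (E (r, b'))) (opL k (fullWord E w) F) = opL k (fullWord E w) F := by
  funext x
  rw [act_apply, opL_fullWord E hw, opL_fullWord E hw]
  congr 1
  refine Fintype.sum_equiv
    (Equiv.piCongrRight (fun r' => if r' = r then Equiv.mulRight (swap b b') else Equiv.refl _))
    _ _ (fun g => ?_)
  congr 1
  funext i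
  by_cases h : (E.symm (x i)).1 = r
  · have h3 : x i = E (r, (E.symm (x i)).2) := by rw [← h]; simp
    set c := (E.symm (x i)).2 with hc
    rw [h3]
    have hsw : swap (E (r, b)) (E (r, b')) (E (r, c)) = E (r, swap b b' c) := by
      rw [E.injective.swap_apply]
      congr 1
      by_cases hcb : c = b
      · subst hcb; simp
      · by_cases hcb' : c = b'
        · subst hcb'; simp
        · rw [swap_apply_of_ne_of_ne, swap_apply_of_ne_of_ne hcb hcb']
          · simp [hcb]
          · simp [hcb']
    rw [hsw]
    simp [Equiv.piCongrRight_apply]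
  · have hsw : swap (E (r, b)) (E (r, b')) (x i) = x i := by
      rw [swap_apply_of_ne_of_ne]
      · intro h'; apply h; rw [h']; simp
      · intro h'; apply h; rw [h']; simp
    rw [hsw]
    simp [Equiv.piCongrRight_apply, h]

end blocks

/-! ### The grid -/

theorem grid_rank (m k : ℕ) (hm : 0 < m) {w : List (Gate (Fin m))} (hwv : Valid w)
    (hw : Unif k w) : ∃ X : List (Gate (Fin m × Fin m)), Valid X ∧ X.length = 2 * (m * w.length) ∧
      finrank ℝ ((V k (Fin m × Fin m)).map (opL k X)) ≤ 2 ^ (k * k) := by
  have : Nonempty (Fin m) := ⟨⟨0, hm⟩⟩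
  let Er : Fin m × Fin m ≃ Fin m × Fin m := Equiv.refl _
  let Ec : Fin m × Fin m ≃ Fin m × Fin m := Equiv.prodComm _ _
  refine ⟨fullWord Ec w ++ fullWord Er w,
    (blockWord_valid _ hwv _).append (blockWord_valid _ hwv _), ?_, ?_⟩
  · rw [List.length_append]
    unfold fullWord
    rw [blockWord_length, blockWord_length, Finset.length_toList, Finset.card_univ,
      Fintype.card_fin]
    ring
  have hcard : Fintype.card (Fin k × Fin k → Bool) = 2 ^ (k * k) := by
    rw [Fintype.card_fun, Fintype.card_prod, Fintype.card_fin, Fintype.card_bool]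
  rw [← hcard]
  apply finrank_le_of_type _ (fun x (p : Fin k × Fin k) => decide ((x p.1).1 = (x p.2).1))
  · rintro F ⟨G, hG, rfl⟩ x hx
    exact (V_opL hG _).1 x hx
  · rintro F ⟨G, hG, rfl⟩ x y hx hy hty
    rw [opL_append]
    set H := opL k (fullWord Ec w) G with hH
    have hHV : H ∈ V k (Fin m × Fin m) := V_opL hG _
    have hrow : ∀ i j, (x i).1 = (x j).1 ↔ (y i).1 = (y j).1 := by
      intro i j
      have := congrFun hty (i, j)
      simpa using this
    obtain ⟨π, hπ⟩ := exists_perm_comp (fun i => (x i).1) (fun i => (y i).1) hrow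
    -- step 1 : invariance of `H` under `π̂`
    have hHπ : ∀ z : Fin k → Fin m × Fin m, H (fun i => (π (z i).1, (z i).2)) = H z := by
      intro z
      by_cases hz : Function.Injective z
      · apply conn (cls := fun a : Fin m × Fin m => a.2)
        · rintro ⟨a1, a2⟩ ⟨b1, b2⟩ hab
          simp only at hab
          subst hab
          exact fullWord_inv Ec hw G a2 a1 b1
        · intro i j hij
          apply hz
          simp only [Prod.mk.injEq, EmbeddingLike.apply_eq_iff_eq] at hij
          exact Prod.ext hij.1 hij.2
        · exact hz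
        · intro i; rfl
      · rw [hHV.1 z hz]
        apply hHV.1
        intro h
        apply hz
        intro i j hij
        exact h (by simp [hij])
    -- step 2
    have h2 : opL k (fullWord Er w) H (fun i => (π (x i).1, (x i).2))
        = opL k (fullWord Er w) H x := by
      rw [opL_fullWord Er hw, opL_fullWord Er hw]
      congr 1
      refine Fintype.sum_equiv (Equiv.arrowCongr π.symm (Equiv.refl (Perm (Fin m)))) _ _
        (fun g => ?_)
      simp only [Er, Equiv.refl_symm, Equiv.coe_refl, id_eq, Equiv.arrowCongr_apply,
        Function.comp_apply, Equiv.symm_symm]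
      exact hHπ (fun i => ((x i).1, g (π (x i).1) (x i).2))
    rw [← h2]
    apply conn (cls := fun a : Fin m × Fin m => a.1)
    · rintro ⟨a1, a2⟩ ⟨b1, b2⟩ hab
      simp only at hab
      subst hab
      exact fullWord_inv Er hw H a1 a2 b2
    · intro i j hij
      apply hx
      simp only [Prod.mk.injEq, EmbeddingLike.apply_eq_iff_eq] at hij
      exact Prod.ext hij.1 hij.2
    · exact hy
    · intro i; exact hπ i

/-! ### Two overlapping blocks -/

theorem cover_rank {β : Type*} [Fintype β] [DecidableEq β] [Nonempty β] (k : ℕ)
    {w : List (Gate β)} (hwv : Valid w) (hw : Unif k w) (e1 e2 : β ↪ α)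
    (hcov : ∀ a, a ∈ Set.range e1 ∨ a ∈ Set.range e2) :
    ∃ X : List (Gate α), Valid X ∧ X.length = 2 * w.length ∧
      finrank ℝ ((V k α).map (opL k X)) ≤ 2 ^ k := by
  classical
  refine ⟨w.map (Gate.map e2) ++ w.map (Gate.map e1), (hwv.map _).append (hwv.map _), ?_, ?_⟩
  · rw [List.length_append, List.length_map, List.length_map]; ring
  have hcard : Fintype.card (Fin k → Bool) = 2 ^ k := by
    rw [Fintype.card_fun, Fintype.card_fin, Fintype.card_bool]
  rw [← hcard]
  apply finrank_le_of_type _ (fun x (i : Fin k) => decide (x i ∈ Set.range e1))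
  · rintro F ⟨G, hG, rfl⟩ x hx
    exact (V_opL hG _).1 x hx
  · rintro F ⟨G, hG, rfl⟩ x y hx hy hty
    rw [opL_append, opL_map_eq_avgOn e2 hw, opL_map_eq_avgOn e1 hw]
    apply conn (cls := fun a : α => decide (a ∈ Set.range e1))
    · intro a b hab
      by_cases ha : a ∈ Set.range e1
      · have hb : b ∈ Set.range e1 := by
          have := hab; simp only [ha, decide_true] at this
          exact of_decide_eq_true this.symm
        obtain ⟨a', rfl⟩ := ha
        obtain ⟨b', rfl⟩ := hb
        rw [← viaEmbedding_swap, avgOn_inv]
      · have hb : b ∉ Set.range e1 := by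
          have := hab; simp only [ha, decide_false] at this
          exact of_decide_eq_false this.symm
        obtain ⟨a', ha'⟩ := (hcov a).resolve_left ha
        obtain ⟨b', hb'⟩ := (hcov b).resolve_left hb
        set H := avgOn k e2 G with hH
        have hHinv : act k (swap a b) H = H := by
          rw [← ha', ← hb', ← viaEmbedding_swap, hH, avgOn_inv]
        funext z
        rw [act_apply, avgOn_apply, avgOn_apply]
        congr 1
        apply Finset.sum_congr rfl
        intro σ _
        have : (fun i => σ.viaEmbedding e1 (swap a b (z i)))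
            = fun i => swap a b (σ.viaEmbedding e1 (z i)) := by
          funext i
          by_cases hz : z i ∈ Set.range e1
          · obtain ⟨c, hc⟩ := hz
            rw [← hc, Perm.viaEmbedding_apply]
            rw [swap_apply_of_ne_of_ne (a := a) (b := b) (x := e1 c),
              swap_apply_of_ne_of_ne, Perm.viaEmbedding_apply]
            · rintro rfl; exact ha ⟨_, rfl⟩
            · rintro rfl; exact hb ⟨_, rfl⟩
            · rintro rfl; exact ha ⟨_, rfl⟩
            · rintro rfl; exact hb ⟨_, rfl⟩
          · rw [Perm.viaEmbedding_apply_of_notMem _ _ _ hz, Perm.viaEmbedding_apply_of_notMem]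
            by_cases h1 : z i = a
            · rw [h1, swap_apply_left]; exact hb
            · by_cases h2 : z i = b
              · rw [h2, swap_apply_right]; exact ha
              · rw [swap_apply_of_ne_of_ne h1 h2]; exact hz
        rw [this]
        exact congrFun hHinv (fun i => σ.viaEmbedding e1 (z i))
    · exact hx
    · exact hy
    · intro i
      exact congrFun hty i

end Pool.Agent.Helper97K9.Shuffle
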